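import Mathlib

set_option autoImplicit false

/-!
# Expectations over a finite product of finite laws
-/

namespace Pool.Agent.R500.WA

open Finset Function
open scoped Classical

section
variable {ι : Type*} [Fintype ι] [DecidableEq ι]

/-- The vectors with `v i < h i`. -/
noncomputable def Box (h : ι → ℕ) : Finset (ι → ℕ) := Fintype.piFinset (fun i => Finset.range (h i))

/-- The product weight. -/
noncomputable def wt (ν : ι → ℕ → ℝ) (v : ι → ℕ) : ℝ := ∏ i, ν i (v i)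

/-- The expectation. -/
noncomputable def Ex (h : ι → ℕ) (ν : ι → ℕ → ℝ) (f : (ι → ℕ) → ℝ) : ℝ :=
  ∑ v ∈ Box h, wt ν v * f v

variable {h : ι → ℕ} {ν : ι → ℕ → ℝ}

lemma mem_Box {v : ι → ℕ} : v ∈ Box h ↔ ∀ i, v i < h i := by
  simp [Box, Fintype.mem_piFinset]

lemma wt_update (v : ι → ℕ) (w : ι) (j : ℕ) :
    wt ν v * ν w j = wt ν (update v w j) * ν w (v w) := by
  unfold wt
  rw [← Finset.mul_prod_erase univ (fun i => ν i (v i)) (mem_univ w),
    ← Finset.mul_prod_erase univ (fun i => ν i (update v w j i)) (mem_univ w)]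
  have h1 : ∏ x ∈ univ.erase w, ν x (update v w j x) = ∏ x ∈ univ.erase w, ν x (v x) := by
    refine Finset.prod_congr rfl fun x hx => ?_
    rw [update_of_ne (Finset.ne_of_mem_erase hx)]
  rw [h1, update_self]
  ring

lemma update_mem_Box {v : ι → ℕ} (hv : v ∈ Box h) {w : ι} {j : ℕ} (hj : j < h w) :
    update v w j ∈ Box h := by
  rw [mem_Box] at hv ⊢
  intro i
  by_cases hi : i = w
  · subst hi; simpa using hj
  · rw [update_of_ne hi]; exact hv i

lemma resample (w : ι) (hν : ∑ j ∈ range (h w), ν w j = 1) (f : (ι → ℕ) → ℝ) :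
    Ex h ν f = Ex h ν (fun v => ∑ j ∈ range (h w), ν w j * f (update v w j)) := by
  unfold Ex
  have h1 : ∑ v ∈ Box h, wt ν v * ∑ j ∈ range (h w), ν w j * f (update v w j) =
      ∑ p ∈ Box h ×ˢ range (h w), wt ν p.1 * (ν w p.2 * f (update p.1 w p.2)) := by
    rw [Finset.sum_product]
    refine Finset.sum_congr rfl fun v _ => ?_
    rw [Finset.mul_sum]
  have h2 : ∑ v ∈ Box h, wt ν v * f v =
      ∑ p ∈ Box h ×ˢ range (h w), wt ν p.1 * f p.1 * ν w p.2 := by
    rw [Finset.sum_product]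
    refine Finset.sum_congr rfl fun v _ => ?_
    simp only
    rw [← Finset.mul_sum, hν, mul_one]
  rw [h1, h2]
  refine Finset.sum_nbij' (fun p => (update p.1 w p.2, p.1 w)) (fun p => (update p.1 w p.2, p.1 w))
    ?_ ?_ ?_ ?_ ?_
  · intro p hp
    rw [Finset.mem_product] at hp ⊢
    exact ⟨update_mem_Box hp.1 (Finset.mem_range.1 hp.2),
      Finset.mem_range.2 (mem_Box.1 hp.1 w)⟩
  · intro p hp
    rw [Finset.mem_product] at hp ⊢
    exact ⟨update_mem_Box hp.1 (Finset.mem_range.1 hp.2),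
      Finset.mem_range.2 (mem_Box.1 hp.1 w)⟩
  · intro p _
    simp
  · intro p _
    simp
  · intro p _
    simp only [update_idem, update_eq_self]
    have := wt_update (ν := ν) p.1 w p.2
    calc wt ν p.1 * f p.1 * ν w p.2 = (wt ν p.1 * ν w p.2) * f p.1 := by ring
      _ = (wt ν (update p.1 w p.2) * ν w (p.1 w)) * f p.1 := by rw [this]
      _ = _ := by ring

lemma wt_nonneg (hν0 : ∀ i j, 0 ≤ ν i j) (v : ι → ℕ) : 0 ≤ wt ν v :=
  Finset.prod_nonneg fun i _ => hν0 i (v i)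

lemma Ex_mono (hν0 : ∀ i j, 0 ≤ ν i j) {f g : (ι → ℕ) → ℝ} (hfg : ∀ v ∈ Box h, f v ≤ g v) :
    Ex h ν f ≤ Ex h ν g :=
  Finset.sum_le_sum fun v hv => mul_le_mul_of_nonneg_left (hfg v hv) (wt_nonneg hν0 v)

lemma Ex_const_mul (c : ℝ) (f : (ι → ℕ) → ℝ) :
    Ex h ν (fun v => c * f v) = c * Ex h ν f := by
  unfold Ex
  rw [Finset.mul_sum]
  exact Finset.sum_congr rfl fun v _ => by ring

lemma Ex_sub (f g : (ι → ℕ) → ℝ) :
    Ex h ν (fun v => f v - g v) = Ex h ν f - Ex h ν g := by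
  unfold Ex
  rw [← Finset.sum_sub_distrib]
  exact Finset.sum_congr rfl fun v _ => by ring

lemma Ex_sum {κ : Type*} (I : Finset κ) (f : κ → (ι → ℕ) → ℝ) :
    Ex h ν (fun v => ∑ x ∈ I, f x v) = ∑ x ∈ I, Ex h ν (f x) := by
  unfold Ex
  rw [Finset.sum_comm]
  exact Finset.sum_congr rfl fun v _ => by rw [Finset.mul_sum]

lemma Ex_prod (hν : ∀ i, ∑ j ∈ range (h i), ν i j = 1) (T : Finset ι) (g : ι → ℕ → ℝ) :
    Ex h ν (fun v => ∏ i ∈ T, g i (v i)) = ∏ i ∈ T, ∑ j ∈ range (h i), ν i j * g i j := by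
  have h1 : ∏ i ∈ T, ∑ j ∈ range (h i), ν i j * g i j =
      ∏ i, ∑ j ∈ range (h i), ν i j * (if i ∈ T then g i j else 1) := by
    rw [← Finset.prod_subset (Finset.subset_univ T)]
    · refine Finset.prod_congr rfl fun i hi => Finset.sum_congr rfl fun j _ => ?_
      rw [if_pos hi]
    · intro i _ hi
      simp only [if_neg hi, mul_one]
      exact hν i
  rw [h1, Finset.prod_univ_sum]
  unfold Ex Box
  refine Finset.sum_congr rfl fun v _ => ?_
  rw [Finset.prod_mul_distrib]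
  congr 1
  rw [← Finset.prod_subset (Finset.subset_univ T)]
  · refine Finset.prod_congr rfl fun i hi => ?_
    rw [if_pos hi]
  · intro i _ hi
    rw [if_neg hi]

lemma Ex_one (hν : ∀ i, ∑ j ∈ range (h i), ν i j = 1) : Ex h ν (fun _ => 1) = 1 := by
  have := Ex_prod hν ∅ (fun _ _ => 1)
  simpa using this

end

section
variable {ι : Type*} [Fintype ι] [DecidableEq ι] {h : ι → ℕ} {ν : ι → ℕ → ℝ} {δ : ℝ}

/-- The density of `δ` times the uniform law. -/
noncomputable def gg (h : ι → ℕ) (ν : ι → ℕ → ℝ) (δ : ℝ) (i : ι) (j : ℕ) : ℝ :=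
  (δ / h i) / ν i j

/-- The weighted indicator of an event. -/
noncomputable def Wt (h : ι → ℕ) (ν : ι → ℕ → ℝ) (δ : ℝ) (S : Finset ι) (P : (ι → ℕ) → Prop)
    (v : ι → ℕ) : ℝ :=
  (if P v then 1 else 0) * ∏ i ∈ S, gg h ν δ i (v i)

/-- the assumptions on the laws -/
structure Law (h : ι → ℕ) (ν : ι → ℕ → ℝ) (δ : ℝ) : Prop where
  pos : ∀ i, 0 < h i
  nonneg : ∀ i j, 0 ≤ ν i j
  sum : ∀ i, ∑ j ∈ range (h i), ν i j = 1
  low : ∀ i j, j < h i → δ / h i ≤ ν i j
  δpos : 0 < δ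

lemma Law.gg_mul (H : Law h ν δ) {i : ι} {j : ℕ} (hj : j < h i) :
    ν i j * gg h ν δ i j = δ / h i := by
  have h1 : 0 < δ / h i := div_pos H.δpos (by exact_mod_cast H.pos i)
  have h2 : 0 < ν i j := lt_of_lt_of_le h1 (H.low i j hj)
  unfold gg
  field_simp

lemma Law.gg_nonneg (H : Law h ν δ) (i : ι) (j : ℕ) : 0 ≤ gg h ν δ i j :=
  div_nonneg (div_nonneg H.δpos.le (Nat.cast_nonneg _)) (H.nonneg i j)

lemma Law.gg_le (H : Law h ν δ) {i : ι} {j : ℕ} (hj : j < h i) : gg h ν δ i j ≤ 1 := by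
  have h1 : 0 < δ / h i := div_pos H.δpos (by exact_mod_cast H.pos i)
  have h2 : 0 < ν i j := lt_of_lt_of_le h1 (H.low i j hj)
  unfold gg
  rw [div_le_one h2]
  exact H.low i j hj

lemma Law.Wt_nonneg (H : Law h ν δ) (S : Finset ι) (P : (ι → ℕ) → Prop) (v : ι → ℕ) :
    0 ≤ Wt h ν δ S P v := by
  unfold Wt
  refine mul_nonneg ?_ (Finset.prod_nonneg fun i _ => H.gg_nonneg i _)
  split_ifs <;> norm_num

lemma Law.Wt_le (H : Law h ν δ) (S : Finset ι) (P : (ι → ℕ) → Prop) {v : ι → ℕ}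
    (hv : v ∈ Box h) {z : ι} (hz : z ∈ S) :
    Wt h ν δ S P v ≤ (if P v then 1 else 0) * gg h ν δ z (v z) := by
  unfold Wt
  rw [mem_Box] at hv
  refine mul_le_mul_of_nonneg_left ?_ (by split_ifs <;> norm_num)
  rw [← Finset.mul_prod_erase S _ hz]
  have : ∏ x ∈ S.erase z, gg h ν δ x (v x) ≤ 1 :=
    Finset.prod_le_one (fun i _ => H.gg_nonneg i _) (fun i _ => H.gg_le (hv i))
  calc gg h ν δ z (v z) * ∏ x ∈ S.erase z, gg h ν δ x (v x) ≤ gg h ν δ z (v z) * 1 :=
        mul_le_mul_of_nonneg_left this (H.gg_nonneg z _)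
    _ = _ := mul_one _

lemma Law.Wt_le_one (H : Law h ν δ) (S : Finset ι) (P : (ι → ℕ) → Prop) {v : ι → ℕ}
    (hv : v ∈ Box h) : Wt h ν δ S P v ≤ (if P v then 1 else 0) := by
  unfold Wt
  rw [mem_Box] at hv
  have : ∏ x ∈ S, gg h ν δ x (v x) ≤ 1 :=
    Finset.prod_le_one (fun i _ => H.gg_nonneg i _) (fun i _ => H.gg_le (hv i))
  calc _ ≤ (if P v then (1 : ℝ) else 0) * 1 :=
        mul_le_mul_of_nonneg_left this (by split_ifs <;> norm_num)
    _ = _ := mul_one _

lemma Law.lower (H : Law h ν δ) (S : Finset ι) (P : (ι → ℕ) → Prop) {w : ι} (hw : w ∈ S)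
    (hP : ∀ v ∈ Box h, ∃ j < h w, P (update v w j)) :
    δ ^ #S / h w ≤ Ex h ν (Wt h ν δ S P) := by
  have hpos : 0 < h w := H.pos w
  rw [resample w (H.sum w)]
  have h1 : Ex h ν (fun v => δ / h w * ∏ i ∈ S.erase w, gg h ν δ i (v i)) ≤
      Ex h ν (fun v => ∑ j ∈ range (h w), ν w j * Wt h ν δ S P (update v w j)) := by
    refine Ex_mono H.nonneg fun v hv => ?_
    obtain ⟨j, hj, hPj⟩ := hP v hv
    have h2 : δ / h w * ∏ i ∈ S.erase w, gg h ν δ i (v i) =
        ν w j * Wt h ν δ S P (update v w j) := by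
      unfold Wt
      rw [if_pos hPj, one_mul, ← Finset.mul_prod_erase S _ hw, update_self, ← mul_assoc,
        H.gg_mul hj]
      congr 1
      refine Finset.prod_congr rfl fun x hx => ?_
      rw [update_of_ne (Finset.ne_of_mem_erase hx)]
    rw [h2]
    refine Finset.single_le_sum (f := fun j => ν w j * Wt h ν δ S P (update v w j))
      (fun i _ => mul_nonneg (H.nonneg w i) (H.Wt_nonneg S P _)) (Finset.mem_range.2 hj)
  refine le_trans (le_of_eq ?_) h1
  rw [Ex_const_mul, Ex_prod H.sum]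
  have h3 : ∀ i ∈ S.erase w, ∑ j ∈ range (h i), ν i j * gg h ν δ i j = δ := by
    intro i _
    rw [Finset.sum_congr rfl (fun j hj => H.gg_mul (Finset.mem_range.1 hj)), Finset.sum_const,
      Finset.card_range, nsmul_eq_mul]
    have : (h i : ℝ) ≠ 0 := by exact_mod_cast (H.pos i).ne'
    field_simp
  rw [Finset.prod_congr rfl h3, Finset.prod_const, Finset.card_erase_of_mem hw]
  have hS : 0 < #S := Finset.card_pos.2 ⟨w, hw⟩
  obtain ⟨m, hm⟩ : ∃ m, #S = m + 1 := ⟨#S - 1, by omega⟩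
  rw [hm, Nat.add_sub_cancel, pow_succ]
  ring

lemma Law.step (H : Law h ν δ) (P : (ι → ℕ) → Prop) (z : ι) (Q : (ι → ℕ) → ℝ)
    (hQ : ∀ v, 0 ≤ Q v) (hQz : ∀ v j, Q (update v z j) = Q v)
    (hu : ∀ v j j', P (update v z j) → P (update v z j') → j = j') :
    Ex h ν (fun v => (if P v then 1 else 0) * gg h ν δ z (v z) * Q v) ≤ δ / h z * Ex h ν Q := by
  rw [resample z (H.sum z), ← Ex_const_mul]
  refine Ex_mono H.nonneg fun v _ => ?_
  have h1 : ∀ j ∈ range (h z), ν z j * ((if P (update v z j) then 1 else 0) *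
      gg h ν δ z (update v z j z) * Q (update v z j)) =
      δ / h z * Q v * (if P (update v z j) then 1 else 0) := by
    intro j hj
    rw [update_self, hQz]
    have := H.gg_mul (Finset.mem_range.1 hj)
    calc _ = (ν z j * gg h ν δ z j) * Q v * (if P (update v z j) then 1 else 0) := by ring
      _ = _ := by rw [this]
  rw [Finset.sum_congr rfl h1, ← Finset.mul_sum]
  have h2 : ∑ j ∈ range (h z), (if P (update v z j) then (1 : ℝ) else 0) ≤ 1 := by
    rw [← Finset.sum_filter, Finset.sum_const, nsmul_eq_mul, mul_one]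
    have : #{a ∈ range (h z) | P (update v z a)} ≤ 1 := by
      rw [Finset.card_le_one]
      intro a ha b hb
      rw [Finset.mem_filter] at ha hb
      exact hu v a b ha.2 hb.2
    exact_mod_cast this
  have h3 : 0 ≤ δ / h z * Q v :=
    mul_nonneg (div_nonneg H.δpos.le (Nat.cast_nonneg _)) (hQ v)
  calc _ ≤ δ / h z * Q v * 1 := mul_le_mul_of_nonneg_left h2 h3
    _ = _ := mul_one _

lemma Law.upper (H : Law h ν δ) (S S' : Finset ι) (P P' : (ι → ℕ) → Prop) {z z' : ι}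
    (hz : z ∈ S) (hz' : z' ∈ S') (hzz : z ≠ z')
    (hP' : ∀ v j, P' (update v z j) ↔ P' v)
    (hu : ∀ v j j', P (update v z j) → P (update v z j') → j = j')
    (hu' : ∀ v j j', P' (update v z' j) → P' (update v z' j') → j = j') :
    Ex h ν (fun v => Wt h ν δ S P v * Wt h ν δ S' P' v) ≤ δ / h z * (δ / h z') := by
  have h1 : Ex h ν (fun v => Wt h ν δ S P v * Wt h ν δ S' P' v) ≤
      Ex h ν (fun v => (if P v then 1 else 0) * gg h ν δ z (v z) *
        ((if P' v then 1 else 0) * gg h ν δ z' (v z'))) := by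
    refine Ex_mono H.nonneg fun v hv => ?_
    refine mul_le_mul (H.Wt_le S P hv hz) (H.Wt_le S' P' hv hz') (H.Wt_nonneg _ _ _) ?_
    exact mul_nonneg (by split_ifs <;> norm_num) (H.gg_nonneg _ _)
  have h2 := H.step P z (fun v => (if P' v then 1 else 0) * gg h ν δ z' (v z'))
    (fun v => mul_nonneg (by split_ifs <;> norm_num) (H.gg_nonneg _ _))
    (fun v j => by rw [update_of_ne (Ne.symm hzz)]; simp only [hP']) hu
  have h3 := H.step P' z' (fun _ => 1) (fun _ => zero_le_one) (fun _ _ => rfl) hu'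
  simp only [mul_one, Ex_one H.sum] at h3
  refine h1.trans (h2.trans ?_)
  exact mul_le_mul_of_nonneg_left h3 (div_nonneg H.δpos.le (Nat.cast_nonneg _))

/-- **The second moment bound.** -/
lemma Law.union (H : Law h ν δ) {κ : Type*} (I : Finset κ) (S : κ → Finset ι)
    (P : κ → (ι → ℕ) → Prop) (s : (ι → ℕ) → Prop) (hs : ∀ x ∈ I, ∀ v, P x v → s v) {α β : ℝ}
    (hα : ∀ x ∈ I, α ≤ Ex h ν (Wt h ν δ (S x) (P x)))
    (hβ : ∀ x ∈ I, ∀ y ∈ I, x ≠ y →
      Ex h ν (fun v => Wt h ν δ (S x) (P x) v * Wt h ν δ (S y) (P y) v) ≤ β) (hβ0 : 0 ≤ β) :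
    #I * α - #I * #I * β ≤ Ex h ν (fun v => if s v then 1 else 0) := by
  set f : κ → (ι → ℕ) → ℝ := fun x => Wt h ν δ (S x) (P x) with hf
  have h1 : Ex h ν (fun v => ∑ x ∈ I, f x v - ∑ p ∈ I.offDiag, f p.1 v * f p.2 v) ≤
      Ex h ν (fun v => if s v then 1 else 0) := by
    refine Ex_mono H.nonneg fun v hv => ?_
    by_cases hsv : s v
    · rw [if_pos hsv]
      have hd : ∑ p ∈ I.offDiag, f p.1 v * f p.2 v =
          (∑ x ∈ I, f x v) * (∑ x ∈ I, f x v) - ∑ x ∈ I, f x v * f x v := by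
        have e1 : ∑ p ∈ I ×ˢ I, f p.1 v * f p.2 v = (∑ x ∈ I, f x v) * (∑ x ∈ I, f x v) := by
          rw [Finset.sum_mul_sum, Finset.sum_product]
        have e2 : ∑ p ∈ I.diag, f p.1 v * f p.2 v = ∑ x ∈ I, f x v * f x v := by
          rw [Finset.sum_diag]
        rw [← e1, ← e2, ← Finset.diag_union_offDiag,
          Finset.sum_union (Finset.disjoint_diag_offDiag I)]
        ring
      have hle : ∑ x ∈ I, f x v * f x v ≤ ∑ x ∈ I, f x v := by
        refine Finset.sum_le_sum fun x _ => ?_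
        have := H.Wt_le_one (S x) (P x) hv
        have h1 : f x v ≤ 1 := this.trans (by split_ifs <;> norm_num)
        calc f x v * f x v ≤ f x v * 1 :=
              mul_le_mul_of_nonneg_left h1 (H.Wt_nonneg _ _ _)
          _ = _ := mul_one _
      rw [hd]
      nlinarith [sq_nonneg (1 - ∑ x ∈ I, f x v)]
    · rw [if_neg hsv]
      have h0 : ∀ x ∈ I, f x v = 0 := by
        intro x hx
        simp only [hf, Wt]
        rw [if_neg (fun hp => hsv (hs x hx v hp)), zero_mul]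
      rw [Finset.sum_eq_zero h0, zero_sub, neg_nonpos]
      exact Finset.sum_nonneg fun p _ => mul_nonneg (H.Wt_nonneg _ _ _) (H.Wt_nonneg _ _ _)
  refine le_trans ?_ h1
  rw [Ex_sub, Ex_sum, Ex_sum]
  have h2 : (#I : ℝ) * α ≤ ∑ x ∈ I, Ex h ν (f x) := by
    have := Finset.card_nsmul_le_sum I (fun x => Ex h ν (f x)) α hα
    simpa [nsmul_eq_mul] using this
  have h3 : ∑ p ∈ I.offDiag, Ex h ν (fun v => f p.1 v * f p.2 v) ≤ #I * #I * β := by
    have h4 := Finset.sum_le_card_nsmul I.offDiag (fun p => Ex h ν (fun v => f p.1 v * f p.2 v)) β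
      (fun p hp => by
        rw [Finset.mem_offDiag] at hp
        exact hβ p.1 hp.1 p.2 hp.2.1 hp.2.2)
    refine h4.trans ?_
    rw [nsmul_eq_mul]
    refine mul_le_mul_of_nonneg_right ?_ hβ0
    rw [Finset.offDiag_card]
    have : (#I * #I - #I : ℕ) ≤ #I * #I := Nat.sub_le _ _
    exact_mod_cast this
  linarith

end

end Pool.Agent.R500.WA
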