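import Mathlib

set_option autoImplicit false

/-!
# The greedy algorithm for `k`-th powers in a residue class
-/

namespace Pool.Agent.R500.WA

open Finset

lemma pow_sub_le (k : ℕ) {x y : ℝ} (hy : 0 ≤ y) (hxy : y ≤ x) :
    x ^ (k + 1) - y ^ (k + 1) ≤ (k + 1) * (x - y) * x ^ k := by
  induction k with
  | zero => simp
  | succ k ih =>
    have h1 : x ^ (k + 1 + 1) - y ^ (k + 1 + 1) =
        x * (x ^ (k + 1) - y ^ (k + 1)) + y ^ (k + 1) * (x - y) := by ring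
    have hx : 0 ≤ x := hy.trans hxy
    have h2 : y ^ (k + 1) * (x - y) ≤ x ^ (k + 1) * (x - y) :=
      mul_le_mul_of_nonneg_right (pow_le_pow_left₀ hy hxy _) (by linarith)
    have h3 := mul_le_mul_of_nonneg_left ih hx
    rw [h1]
    push_cast
    calc _ ≤ x * ((k + 1) * (x - y) * x ^ k) + x ^ (k + 1) * (x - y) := add_le_add h3 h2
      _ = _ := by ring

/-- One step. -/
lemma greedy_step {k : ℕ} (hk : 1 ≤ k) {B b r : ℕ} (hb : b < B) (hr : (2 * B) ^ k ≤ r) :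
    ∃ y : ℕ, B ≤ y ∧ y % B = b ∧ y ^ k ≤ r ∧ r < (y + B) ^ k := by
  have hB : 0 < B := by omega
  have h10 : (B * 1 + b) ^ k ≤ r := by
    refine le_trans (Nat.pow_le_pow_left ?_ k) hr
    omega
  have hbd : ∀ t, (B * t + b) ^ k ≤ r → t ≤ r := by
    intro t ht
    have h1 : t ≤ B * t + b := by nlinarith
    have h2 : B * t + b ≤ (B * t + b) ^ k := Nat.le_self_pow (by omega) _
    omega
  have hfg : (B * Nat.findGreatest (fun t => (B * t + b) ^ k ≤ r) r + b) ^ k ≤ r :=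
    Nat.findGreatest_spec (P := fun t => (B * t + b) ^ k ≤ r) (n := r) (m := 1) (hbd 1 h10) h10
  have h1 : 1 ≤ Nat.findGreatest (fun t => (B * t + b) ^ k ≤ r) r :=
    Nat.le_findGreatest (hbd 1 h10) h10
  set T := Nat.findGreatest (fun t => (B * t + b) ^ k ≤ r) r with hT
  refine ⟨B * T + b, ?_, ?_, hfg, ?_⟩
  · nlinarith
  · rw [Nat.mul_add_mod, Nat.mod_eq_of_lt hb]
  · by_contra hcon
    push Not at hcon
    have h2 : (B * (T + 1) + b) ^ k ≤ r := by
      have : B * (T + 1) + b = B * T + b + B := by ring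
      rw [this]; exact hcon
    have h3 := Nat.le_findGreatest (P := fun t => (B * t + b) ^ k ≤ r) (hbd _ h2) h2
    omega

/-- The exponent `1 - 1 / k`. -/
noncomputable def θ (k : ℕ) : ℝ := 1 - 1 / (k : ℝ)

/-- The factor lost in one step. -/
noncomputable def A (k B : ℕ) : ℝ := k * B * 2 ^ (k - 1)

lemma θ_nonneg {k : ℕ} (hk : 1 ≤ k) : 0 ≤ θ k := by
  unfold θ
  have : (1 : ℝ) ≤ k := by exact_mod_cast hk
  have : 1 / (k : ℝ) ≤ 1 := by rw [div_le_one (by linarith)]; exact this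
  linarith

lemma θ_lt {k : ℕ} (hk : 1 ≤ k) : θ k < 1 := by
  unfold θ
  have : (1 : ℝ) ≤ k := by exact_mod_cast hk
  have : 0 < 1 / (k : ℝ) := by positivity
  linarith

lemma one_le_A {k B : ℕ} (hk : 1 ≤ k) (hB : 1 ≤ B) : 1 ≤ A k B := by
  unfold A
  have h1 : (1 : ℝ) ≤ k := by exact_mod_cast hk
  have h2 : (1 : ℝ) ≤ B := by exact_mod_cast hB
  have h3 : (1 : ℝ) ≤ 2 ^ (k - 1) := one_le_pow₀ (by norm_num)
  nlinarith [mul_le_mul h1 h2 (by norm_num) (by linarith)]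

lemma step_bound {k : ℕ} (hk : 1 ≤ k) {B y r : ℕ} (hy : B ≤ y) (h1 : y ^ k ≤ r)
    (h2 : r < (y + B) ^ k) : ((r - y ^ k : ℕ) : ℝ) ≤ A k B * (r : ℝ) ^ θ k := by
  obtain ⟨m, rfl⟩ : ∃ m, k = m + 1 := ⟨k - 1, by omega⟩
  rw [Nat.cast_sub h1]
  push_cast
  have hyB : (B : ℝ) ≤ y := by exact_mod_cast hy
  have h3 : (r : ℝ) ≤ ((y : ℝ) + B) ^ (m + 1) := by
    have := h2.le
    exact_mod_cast this
  have h4 := pow_sub_le m (x := (y : ℝ) + B) (y := y) (Nat.cast_nonneg _) (by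
    have : (0 : ℝ) ≤ B := Nat.cast_nonneg _
    linarith)
  have h5 : ((y : ℝ) + B) ^ m ≤ 2 ^ m * (y : ℝ) ^ m := by
    rw [← mul_pow]
    exact pow_le_pow_left₀ (by positivity) (by linarith) _
  have h6 : (y : ℝ) ^ m ≤ (r : ℝ) ^ θ (m + 1) := by
    have e1 : (y : ℝ) ^ m = ((y : ℝ) ^ (m + 1)) ^ θ (m + 1) := by
      rw [← Real.rpow_natCast, ← Real.rpow_natCast, ← Real.rpow_mul (Nat.cast_nonneg _)]
      congr 1
      unfold θ
      push_cast
      have : (m : ℝ) + 1 ≠ 0 := by positivity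
      field_simp
      ring
    rw [e1]
    refine Real.rpow_le_rpow (by positivity) ?_ (θ_nonneg (by omega))
    exact_mod_cast h1
  unfold A
  rw [Nat.add_sub_cancel]
  push_cast
  have h7 : (0 : ℝ) ≤ ((m : ℝ) + 1) * B := by positivity
  calc (r : ℝ) - (y : ℝ) ^ (m + 1) ≤ ((y : ℝ) + B) ^ (m + 1) - (y : ℝ) ^ (m + 1) := by linarith
    _ ≤ (m + 1) * ((y : ℝ) + B - y) * ((y : ℝ) + B) ^ m := h4
    _ = ((m : ℝ) + 1) * B * ((y : ℝ) + B) ^ m := by ring
    _ ≤ ((m : ℝ) + 1) * B * (2 ^ m * (r : ℝ) ^ θ (m + 1)) := by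
        refine mul_le_mul_of_nonneg_left (h5.trans ?_) h7
        exact mul_le_mul_of_nonneg_left h6 (by positivity)
    _ = _ := by ring

/-- The greedy algorithm. -/
lemma greedy {k : ℕ} (hk : 1 ≤ k) {B b : ℕ} (hb : b < B) : ∀ J r : ℕ, ∃ (ys : List ℕ) (r' : ℕ),
    ys.length ≤ J ∧ (∀ y ∈ ys, 1 ≤ y ∧ y % B = b ∧ y ^ k ≤ r) ∧
      (ys.map (fun y => y ^ k)).sum + r' = r ∧
      (r' : ℝ) ≤ (2 * B) ^ k + A k B ^ J * (r : ℝ) ^ (θ k ^ J) := by
  have hB : 1 ≤ B := by omega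
  have hA := one_le_A hk hB
  intro J
  induction J with
  | zero =>
    intro r
    refine ⟨[], r, by simp, by simp, by simp, ?_⟩
    simp only [pow_zero, one_mul, Real.rpow_one]
    have : (0 : ℝ) ≤ (2 * B) ^ k := by positivity
    linarith
  | succ J ih =>
    intro r
    by_cases hr : (2 * B) ^ k ≤ r
    · obtain ⟨y, hy1, hy2, hy3, hy4⟩ := greedy_step hk hb hr
      have hsb := step_bound hk hy1 hy3 hy4
      obtain ⟨ys, r', h1, h2, h3, h4⟩ := ih (r - y ^ k)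
      refine ⟨y :: ys, r', by simpa using h1, ?_, ?_, ?_⟩
      · intro z hz
        rcases List.mem_cons.1 hz with rfl | hz
        · exact ⟨hB.trans hy1, hy2, hy3⟩
        · obtain ⟨a1, a2, a3⟩ := h2 z hz
          exact ⟨a1, a2, a3.trans (Nat.sub_le _ _)⟩
      · rw [List.map_cons, List.sum_cons, add_assoc, h3]
        omega
      · refine h4.trans ?_
        have hθ0 : 0 ≤ θ k ^ J := pow_nonneg (θ_nonneg hk) _
        have hθ1 : θ k ^ J ≤ 1 := pow_le_one₀ (θ_nonneg hk) (θ_lt hk).le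
        have e1 : ((r - y ^ k : ℕ) : ℝ) ^ (θ k ^ J) ≤ A k B * (r : ℝ) ^ (θ k ^ (J + 1)) := by
          calc ((r - y ^ k : ℕ) : ℝ) ^ (θ k ^ J) ≤ (A k B * (r : ℝ) ^ θ k) ^ (θ k ^ J) :=
                Real.rpow_le_rpow (Nat.cast_nonneg _) hsb hθ0
            _ = A k B ^ (θ k ^ J) * ((r : ℝ) ^ θ k) ^ (θ k ^ J) :=
                Real.mul_rpow (by linarith) (by positivity)
            _ = A k B ^ (θ k ^ J) * (r : ℝ) ^ (θ k ^ (J + 1)) := by
                rw [← Real.rpow_mul (Nat.cast_nonneg _), pow_succ']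
            _ ≤ A k B * (r : ℝ) ^ (θ k ^ (J + 1)) := by
                refine mul_le_mul_of_nonneg_right ?_ (by positivity)
                calc A k B ^ (θ k ^ J) ≤ A k B ^ (1 : ℝ) :=
                      Real.rpow_le_rpow_of_exponent_le hA hθ1
                  _ = _ := Real.rpow_one _
        have e2 : (0 : ℝ) ≤ A k B ^ J := by positivity
        calc (2 * (B : ℝ)) ^ k + A k B ^ J * ((r - y ^ k : ℕ) : ℝ) ^ (θ k ^ J)
            ≤ (2 * (B : ℝ)) ^ k + A k B ^ J * (A k B * (r : ℝ) ^ (θ k ^ (J + 1))) := by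
              have := mul_le_mul_of_nonneg_left e1 e2
              linarith
          _ = _ := by ring
    · push Not at hr
      refine ⟨[], r, by simp, by simp, by simp, ?_⟩
      have h1 : (r : ℝ) ≤ (2 * B) ^ k := by exact_mod_cast hr.le
      have h2 : 0 ≤ A k B ^ (J + 1) * (r : ℝ) ^ (θ k ^ (J + 1)) := by positivity
      linarith

/-- The greedy algorithm with exactly `J` summands. -/
lemma greedy' {k : ℕ} (hk : 1 ≤ k) {B b : ℕ} (hb : b < B) (J r : ℕ) : ∃ (ys : List ℕ) (R : ℕ),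
    ys.length = J ∧ (∀ y ∈ ys, 1 ≤ y ∧ y % B = b ∧ y ^ k ≤ r + (2 * B) ^ k) ∧
      (ys.map (fun y => y ^ k)).sum + R = r + J * (2 * B) ^ k ∧
      (R : ℝ) ≤ (J + 1) * (2 * B) ^ k + A k B ^ J * (r : ℝ) ^ (θ k ^ J) := by
  obtain ⟨ys, r', h1, h2, h3, h4⟩ := greedy hk hb J r
  have hu : (B + b) ^ k ≤ (2 * B) ^ k := Nat.pow_le_pow_left (by omega) k
  have hd : (J - ys.length) * (B + b) ^ k ≤ J * (2 * B) ^ k :=
    Nat.mul_le_mul (Nat.sub_le _ _) hu
  refine ⟨ys ++ List.replicate (J - ys.length) (B + b),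
    r' + (J * (2 * B) ^ k - (J - ys.length) * (B + b) ^ k), ?_, ?_, ?_, ?_⟩
  · rw [List.length_append, List.length_replicate]
    omega
  · intro y hy
    rcases List.mem_append.1 hy with hy | hy
    · obtain ⟨a1, a2, a3⟩ := h2 y hy
      exact ⟨a1, a2, a3.trans (Nat.le_add_right _ _)⟩
    · rw [List.eq_of_mem_replicate hy]
      refine ⟨by omega, ?_, hu.trans (Nat.le_add_left _ _)⟩
      rw [Nat.add_mod_left, Nat.mod_eq_of_lt hb]
  · rw [List.map_append, List.sum_append, List.map_replicate, List.sum_replicate, smul_eq_mul]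
    omega
  · push_cast
    have e1 : ((J * (2 * B) ^ k - (J - ys.length) * (B + b) ^ k : ℕ) : ℝ) ≤ J * (2 * B) ^ k := by
      have := Nat.sub_le (J * (2 * B) ^ k) ((J - ys.length) * (B + b) ^ k)
      exact_mod_cast this
    linarith

end Pool.Agent.R500.WA
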