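import Mathlib
import Pool.Agent.R500.WA.Count
import Pool.Agent.R500.WA.Greedy

set_option autoImplicit false

/-!
# The second moment bound for one residue class
-/

namespace Pool.Agent.R500.WA

open Finset Function
open scoped Classical

section
variable {D : Finset ℕ}

/-- The value at an index. -/
noncomputable def vv (v : ↥D → ℕ) (x : ℕ) : ℕ := if hx : x ∈ D then v ⟨x, hx⟩ else 0

/-- The sum of the moved powers of a list. -/
noncomputable def ff (k : ℕ) (l : List ℕ) (v : ↥D → ℕ) : ℕ :=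
  (l.map (fun y => y ^ k + vv v y)).sum

lemma vv_update (v : ↥D → ℕ) {w : ℕ} (hw : w ∈ D) (j y : ℕ) :
    vv (update v ⟨w, hw⟩ j) y = if y = w then j else vv v y := by
  unfold vv
  by_cases hy : y = w
  · subst hy
    rw [dif_pos hw, update_self, if_pos rfl]
  · rw [if_neg hy]
    by_cases hyD : y ∈ D
    · rw [dif_pos hyD, dif_pos hyD, update_of_ne]
      intro h
      exact hy (congrArg Subtype.val h)
    · rw [dif_neg hyD, dif_neg hyD]

lemma ff_upd (k : ℕ) (l : List ℕ) (v : ↥D → ℕ) {w : ℕ} (hw : w ∈ D) (j : ℕ) :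
    ff k l (update v ⟨w, hw⟩ j) + l.count w * v ⟨w, hw⟩ = ff k l v + l.count w * j := by
  induction l with
  | nil => simp [ff]
  | cons y l ih =>
    have e1 : ∀ u : ↥D → ℕ, ff k (y :: l) u = y ^ k + vv u y + ff k l u := fun u => by
      simp [ff]
    rw [e1, e1, vv_update]
    by_cases hy : y = w
    · subst hy
      rw [if_pos rfl, List.count_cons_self]
      have : vv v y = v ⟨y, hw⟩ := by unfold vv; rw [dif_pos hw]
      rw [this]
      nlinarith [ih]
    · rw [if_neg hy, List.count_cons_of_ne hy]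
      omega

lemma ff_eq (k : ℕ) (l : List ℕ) (v : ↥D → ℕ) :
    ff k l v = (l.map (fun y => y ^ k)).sum + (l.map (fun y => vv v y)).sum := by
  unfold ff
  induction l with
  | nil => simp
  | cons y l ih => simp only [List.map_cons, List.sum_cons]; rw [ih]; ring

end

/-- The free summands. -/
def zf (B b M m i t : ℕ) : ℕ := B * (M + i * m + t) + b

lemma zf_inj {B b M m i t i' t' : ℕ} (hB : 0 < B) (ht : t < m) (ht' : t' < m)
    (h : zf B b M m i t = zf B b M m i' t') : i = i' ∧ t = t' := by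
  unfold zf at h
  have h1 : M + i * m + t = M + i' * m + t' := Nat.eq_of_mul_eq_mul_left hB (by omega)
  have h2 : i * m + t = i' * m + t' := by omega
  have hm : 0 < m := by omega
  have h3 : (i * m + t) / m = i := by
    rw [mul_comm, Nat.mul_add_div hm, Nat.div_eq_of_lt ht, add_zero]
  have h4 : (i' * m + t') / m = i' := by
    rw [mul_comm, Nat.mul_add_div hm, Nat.div_eq_of_lt ht', add_zero]
  have h5 : i = i' := by rw [← h3, ← h4, h2]
  subst h5
  exact ⟨rfl, by omega⟩

/-- the numerical assumptions -/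
structure Par (k F J B n M m L Y : ℕ) (h : ℕ → ℕ) : Prop where
  hk : 1 ≤ k
  hB : 1 ≤ B
  hM : 1 ≤ M
  hmM : F * m ≤ M
  hmono : Monotone h
  hY : 2 * B * M ≤ Y
  hn : F * (2 * B * M) ^ k + L + J * (2 * B) ^ k + (Y + B) ^ k ≤ n
  hsmall : A k B * (n : ℝ) ^ θ k + (2 * B) ^ k < (B * M) ^ k
  hL : (F + J) * h (2 * B * M) ≤ L
  hR : (L : ℝ) + (J + 1) * (2 * B) ^ k + A k B ^ J * (A k B * (n : ℝ) ^ θ k) ^ (θ k ^ J) < h Y

variable {k F J B n M m L Y : ℕ} {h : ℕ → ℕ}

lemma Par.zf_lt (hp : Par k F J B n M m L Y h) {b i t : ℕ} (hb : b < B) (hi : i < F)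
    (ht : t < m) : zf B b M m i t < 2 * B * M := by
  unfold zf
  have h1 : M + i * m + t + 1 ≤ 2 * M := by
    have : (i + 1) * m ≤ F * m := Nat.mul_le_mul_right m hi
    have := hp.hmM
    nlinarith
  have h2 : B * (M + i * m + t + 1) ≤ B * (2 * M) := Nat.mul_le_mul_left B h1
  nlinarith

lemma zf_ge (B b M m i t : ℕ) : B * M ≤ zf B b M m i t := by
  unfold zf
  have : B * M ≤ B * (M + i * m + t) := Nat.mul_le_mul_left B (by omega)
  omega

lemma Par.tuple (hp : Par k F J B n M m L Y h) {b : ℕ} (hb : b < B) (x : Fin F → Fin m) :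
    ∃ (x₀ : ℕ) (ys : List ℕ) (R : ℕ), ys.length = J ∧ Y < x₀ ∧ x₀ ^ k ≤ n ∧ x₀ % B = b ∧
      (∀ y ∈ ys, 1 ≤ y ∧ y % B = b ∧ y < B * M) ∧
      x₀ ^ k + ∑ i : Fin F, (zf B b M m i (x i)) ^ k + (ys.map (fun y => y ^ k)).sum + (L + R) = n ∧
      L + R < h Y := by
  have hk := hp.hk
  have hZ : ∑ i : Fin F, (zf B b M m i (x i)) ^ k ≤ F * (2 * B * M) ^ k := by
    have := Finset.sum_le_card_nsmul (univ : Finset (Fin F))
      (fun i => (zf B b M m i (x i)) ^ k) ((2 * B * M) ^ k)
      (fun i _ => Nat.pow_le_pow_left (hp.zf_lt hb i.2 (x i).2).le k)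
    simpa using this
  set Z := ∑ i : Fin F, (zf B b M m i (x i)) ^ k with hZdef
  have hn := hp.hn
  obtain ⟨r₀, hr₀⟩ : ∃ r₀, Z + L + J * (2 * B) ^ k + r₀ = n :=
    ⟨n - (Z + L + J * (2 * B) ^ k), by omega⟩
  have hr₀Y : (Y + B) ^ k ≤ r₀ := by omega
  have hYB : B ≤ Y := by
    have := hp.hY
    have := hp.hM
    nlinarith [hp.hB]
  obtain ⟨x₀, h1, h2, h3, h4⟩ := greedy_step (r := r₀) hk hb
    (le_trans (Nat.pow_le_pow_left (by omega) k) hr₀Y)
  have hYx : Y < x₀ := by
    have : Y + B < x₀ + B := lt_of_pow_lt_pow_left₀ k (Nat.zero_le _) (hr₀Y.trans_lt h4)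
    omega
  have hsb := step_bound hk h1 h3 h4
  have hA := one_le_A hk hp.hB
  have hr₁ : ((r₀ - x₀ ^ k : ℕ) : ℝ) ≤ A k B * (n : ℝ) ^ θ k := by
    refine hsb.trans (mul_le_mul_of_nonneg_left ?_ (by linarith))
    refine Real.rpow_le_rpow (Nat.cast_nonneg _) ?_ (θ_nonneg hk)
    have : r₀ ≤ n := by omega
    exact_mod_cast this
  obtain ⟨ys, R, g1, g2, g3, g4⟩ := greedy' hk hb J (r₀ - x₀ ^ k)
  refine ⟨x₀, ys, R, g1, hYx, by omega, h2, ?_, ?_, ?_⟩
  · intro y hy
    obtain ⟨a1, a2, a3⟩ := g2 y hy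
    refine ⟨a1, a2, ?_⟩
    have h5 : (y : ℝ) ^ k ≤ ((r₀ - x₀ ^ k : ℕ) : ℝ) + (2 * B) ^ k := by exact_mod_cast a3
    have h6 : (y : ℝ) ^ k < (B * M) ^ k := by
      have := hp.hsmall
      linarith
    have h7 : (y : ℝ) < B * M := lt_of_pow_lt_pow_left₀ k (by positivity) h6
    exact_mod_cast h7
  · omega
  · have h5 : ((r₀ - x₀ ^ k : ℕ) : ℝ) ^ (θ k ^ J) ≤ (A k B * (n : ℝ) ^ θ k) ^ (θ k ^ J) :=
      Real.rpow_le_rpow (Nat.cast_nonneg _) hr₁ (pow_nonneg (θ_nonneg hk) _)
    have h6 : (0 : ℝ) ≤ A k B ^ J := by positivity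
    have h7 := mul_le_mul_of_nonneg_left h5 h6
    have h8 := hp.hR
    have h9 : ((L + R : ℕ) : ℝ) < h Y := by
      push_cast
      linarith
    exact_mod_cast h9

/-- The indices of a block. -/
def DD (n B b : ℕ) : Finset ℕ := (range (n + 1)).filter (fun x => x % B = b)

lemma mem_DD {n B b x : ℕ} : x ∈ DD n B b ↔ x ≤ n ∧ x % B = b := by
  simp [DD]

/-- `n` is a sum of `t` moved powers from the block. -/
def Succ (k t n B b : ℕ) (v : ↥(DD n B b) → ℕ) : Prop :=
  ∃ l : List ℕ, l.length = t ∧ (∀ y ∈ l, 1 ≤ y) ∧ (∀ y ∈ l, y ∈ DD n B b) ∧ ff k l v = n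

theorem Par.block (hp : Par k F J B n M m L Y h) {b : ℕ} (hb : b < B) {N Hmax Hmin : ℕ} {δ : ℝ}
    (hN : N ≤ m ^ F) (hmax : ∀ x, x ^ k ≤ n → h x ≤ Hmax) (hmin : Hmin ≤ h (B * M))
    (hmin0 : 0 < Hmin) (hmax0 : 0 < Hmax) (hδ1 : δ ≤ 1)
    {ν : ↥(DD n B b) → ℕ → ℝ} (H : Law (fun i : ↥(DD n B b) => h i) ν δ) :
    N * (δ ^ (F + 1) / Hmax) - N * N * (δ / Hmin * (δ / Hmin)) ≤
      Ex (fun i : ↥(DD n B b) => h i) ν
        (fun v => if Succ k (F + 1 + J) n B b v then 1 else 0) := by
  have hk := hp.hk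
  have hB := hp.hB
  have hB0 : 0 < B := hB
  choose x₀ ys R g1 g2 g3 g4 g5 g6 g7 using fun x : Fin F → Fin m => hp.tuple hb x
  have hδ := H.δpos
  -- the tuple list
  set zl : (Fin F → Fin m) → List ℕ := fun x => List.ofFn (fun i : Fin F => zf B b M m i (x i))
    with hzl
  set ll : (Fin F → Fin m) → List ℕ := fun x => x₀ x :: (zl x ++ ys x) with hll
  have hx₀n : ∀ x, x₀ x ≤ n := fun x => (Nat.le_self_pow (by omega) _).trans (g3 x)
  have hx₀D : ∀ x, x₀ x ∈ DD n B b := fun x => mem_DD.2 ⟨hx₀n x, g4 x⟩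
  have hYn : ∀ x : Fin F → Fin m, 2 * B * M ≤ n := fun x =>
    (hp.hY.trans (g2 x).le).trans (hx₀n x)
  have hzD : ∀ (x : Fin F → Fin m) (i : Fin F), zf B b M m i (x i) ∈ DD n B b := by
    intro x i
    refine mem_DD.2 ⟨(hp.zf_lt hb i.2 (x i).2).le.trans (hYn x), ?_⟩
    unfold zf
    rw [Nat.mul_add_mod, Nat.mod_eq_of_lt hb]
  have hyD : ∀ x, ∀ y ∈ ys x, y ∈ DD n B b := by
    intro x y hy
    obtain ⟨a1, a2, a3⟩ := g5 x y hy
    refine mem_DD.2 ⟨?_, a2⟩
    have := hYn x
    nlinarith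
  have hzx₀ : ∀ (x x' : Fin F → Fin m) (i : Fin F), zf B b M m i (x i) ≠ x₀ x' := by
    intro x x' i hcon
    have h1 := hp.zf_lt hb i.2 (x i).2
    have h2 := g2 x'
    have h3 := hp.hY
    omega
  have hzy : ∀ (x x' : Fin F → Fin m) (i : Fin F), zf B b M m i (x i) ∉ ys x' := by
    intro x x' i hcon
    have h1 := zf_ge B b M m i (x i)
    have h2 := (g5 x' _ hcon).2.2
    omega
  have hx₀y : ∀ (x : Fin F → Fin m), x₀ x ∉ ys x := by
    intro x hcon
    have h1 := (g5 x _ hcon).2.2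
    have h2 := g2 x
    have h3 := hp.hY
    nlinarith
  have hx₀z : ∀ (x : Fin F → Fin m), x₀ x ∉ zl x := by
    intro x hcon
    rw [hzl, List.mem_ofFn] at hcon
    obtain ⟨i, hi⟩ := hcon
    exact hzx₀ x x i hi
  have hcx₀ : ∀ x, (ll x).count (x₀ x) = 1 := by
    intro x
    rw [hll]
    simp only
    rw [List.count_cons_self, List.count_append, List.count_eq_zero_of_not_mem (hx₀z x),
      List.count_eq_zero_of_not_mem (hx₀y x)]
  have hcz : ∀ (x : Fin F → Fin m) (i : Fin F), (ll x).count (zf B b M m i (x i)) = 1 := by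
    intro x i
    rw [hll]
    simp only
    rw [List.count_cons_of_ne (Ne.symm (hzx₀ x x i)), List.count_append,
      List.count_eq_zero_of_not_mem (hzy x x i), add_zero]
    refine List.count_eq_one_of_mem ?_ ?_
    · rw [hzl, List.nodup_ofFn]
      intro i j hij
      have := (zf_inj hB0 (x i).2 (x j).2 hij).1
      exact Fin.ext this
    · rw [hzl, List.mem_ofFn]
      exact ⟨i, rfl⟩
  have hcz' : ∀ (x x' : Fin F → Fin m) (i : Fin F), x i ≠ x' i → (ll x').count (zf B b M m i (x i)) = 0 := by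
    intro x x' i hne
    rw [hll]
    simp only
    rw [List.count_cons_of_ne (Ne.symm (hzx₀ x x' i)), List.count_append,
      List.count_eq_zero_of_not_mem (hzy x x' i), add_zero]
    refine List.count_eq_zero_of_not_mem ?_
    rw [hzl, List.mem_ofFn]
    rintro ⟨j, hj⟩
    obtain ⟨e1, e2⟩ := zf_inj hB0 (x' j).2 (x i).2 hj
    have e3 : j = i := Fin.ext e1
    subst e3
    exact hne (Fin.ext e2.symm)
  -- the events
  set P : (Fin F → Fin m) → (↥(DD n B b) → ℕ) → Prop := fun x v => ff k (ll x) v = n with hP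
  set S : (Fin F → Fin m) → Finset ↥(DD n B b) := fun x =>
    insert ⟨x₀ x, hx₀D x⟩ (univ.image (fun i : Fin F => (⟨zf B b M m i (x i), hzD x i⟩ :
      ↥(DD n B b)))) with hS
  obtain ⟨I, hI, hIc⟩ := Finset.exists_subset_card_eq (s := (univ : Finset (Fin F → Fin m)))
    (n := N) (by simpa using hN)
  have hSucc : ∀ x ∈ I, ∀ v, P x v → Succ k (F + 1 + J) n B b v := by
    intro x _ v hv
    refine ⟨ll x, ?_, ?_, ?_, hv⟩
    · rw [hll, hzl]
      simp only [List.length_cons, List.length_append, List.length_ofFn, g1 x]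
      ring
    · intro y hy
      rcases List.mem_cons.1 hy with rfl | hy
      · have := g2 x
        omega
      · rcases List.mem_append.1 hy with hy | hy
        · rw [hzl, List.mem_ofFn] at hy
          obtain ⟨i, rfl⟩ := hy
          have := zf_ge B b M m i (x i)
          have := hp.hM
          nlinarith
        · exact (g5 x y hy).1
    · intro y hy
      rcases List.mem_cons.1 hy with rfl | hy
      · exact hx₀D x
      · rcases List.mem_append.1 hy with hy | hy
        · rw [hzl, List.mem_ofFn] at hy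
          obtain ⟨i, rfl⟩ := hy
          exact hzD x i
        · exact hyD x y hy
  have hmain := H.union I S P (Succ k (F + 1 + J) n B b) hSucc
    (α := δ ^ (F + 1) / Hmax) (β := δ / Hmin * (δ / Hmin)) ?_ ?_ (by positivity)
  · rw [hIc] at hmain
    exact hmain
  · -- lower bound
    intro x _
    have hlow := H.lower (S x) (P x) (w := ⟨x₀ x, hx₀D x⟩) (Finset.mem_insert_self _ _) ?_
    · refine le_trans ?_ hlow
      have hcard : #(S x) ≤ F + 1 := by
        rw [hS]
        refine (Finset.card_insert_le _ _).trans ?_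
        have := Finset.card_image_le (s := (univ : Finset (Fin F)))
          (f := fun i : Fin F => (⟨zf B b M m i (x i), hzD x i⟩ : ↥(DD n B b)))
        rw [Finset.card_univ, Fintype.card_fin] at this
        omega
      have e1 : δ ^ (F + 1) ≤ δ ^ #(S x) := pow_le_pow_of_le_one hδ.le hδ1 hcard
      have e2 : (h (x₀ x) : ℝ) ≤ Hmax := by exact_mod_cast hmax _ (g3 x)
      have e3 : (0 : ℝ) < h (x₀ x) := by exact_mod_cast H.pos ⟨x₀ x, hx₀D x⟩
      exact div_le_div₀ (by positivity) e1 e3 e2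
    · intro v hv
      rw [mem_Box] at hv
      have hnoise : ((zl x ++ ys x).map (fun y => vv v y)).sum ≤ L := by
        have e1 : ∀ y ∈ (zl x ++ ys x).map (fun y => vv v y), y ≤ h (2 * B * M) := by
          intro y hy
          rw [List.mem_map] at hy
          obtain ⟨w, hw, rfl⟩ := hy
          have hwle : w ≤ 2 * B * M ∧ w ∈ DD n B b := by
            rcases List.mem_append.1 hw with hw | hw
            · rw [hzl, List.mem_ofFn] at hw
              obtain ⟨i, rfl⟩ := hw
              exact ⟨(hp.zf_lt hb i.2 (x i).2).le, hzD x i⟩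
            · refine ⟨?_, hyD x w hw⟩
              have := (g5 x w hw).2.2
              nlinarith
          unfold vv
          rw [dif_pos hwle.2]
          exact (hv ⟨w, hwle.2⟩).le.trans (hp.hmono hwle.1)
        have e2 := List.sum_le_card_nsmul _ _ e1
        rw [List.length_map, List.length_append, g1 x, smul_eq_mul] at e2
        have e3 : (zl x).length = F := by rw [hzl]; simp
        rw [e3] at e2
        exact e2.trans hp.hL
      have hzsum : ((zl x).map (fun y => y ^ k)).sum =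
          ∑ i : Fin F, (zf B b M m i (x i)) ^ k := by
        rw [hzl]
        simp only
        rw [List.map_ofFn, List.sum_ofFn]
        rfl
      have hfv : ff k (ll x) v = (x₀ x) ^ k + vv v (x₀ x) + ((∑ i : Fin F,
          (zf B b M m i (x i)) ^ k) + ((ys x).map (fun y => y ^ k)).sum +
          ((zl x ++ ys x).map (fun y => vv v y)).sum) := by
        have : ff k (ll x) v = (x₀ x) ^ k + vv v (x₀ x) + ff k (zl x ++ ys x) v := by
          rw [hll]; simp [ff]
        rw [this, ff_eq, List.map_append, List.sum_append, hzsum]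
      have hvx : vv v (x₀ x) = v ⟨x₀ x, hx₀D x⟩ := by unfold vv; rw [dif_pos (hx₀D x)]
      set Q := ((zl x ++ ys x).map (fun y => vv v y)).sum with hQ
      refine ⟨L + R x - Q, ?_, ?_⟩
      · have h1 := g7 x
        have h2 := hp.hmono (g2 x).le
        simp only
        omega
      · have hup := ff_upd k (ll x) v (hx₀D x) (L + R x - Q)
        rw [hcx₀ x, one_mul, one_mul, hfv, hvx] at hup
        have h6 := g6 x
        rw [hP]
        simp only
        omega
  · -- upper bound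
    intro x _ x' _ hne
    obtain ⟨i, hi⟩ := Function.ne_iff.1 hne
    have hzz : (⟨zf B b M m i (x i), hzD x i⟩ : ↥(DD n B b)) ≠
        ⟨zf B b M m i (x' i), hzD x' i⟩ := by
      intro hcon
      have := (zf_inj hB0 (x i).2 (x' i).2 (congrArg Subtype.val hcon)).2
      exact hi (Fin.ext this)
    have q1 : ∀ (v : ↥(DD n B b) → ℕ) (j : ℕ),
        ff k (ll x') (update v ⟨zf B b M m i (x i), hzD x i⟩ j) = ff k (ll x') v := by
      intro v j
      have h1 := ff_upd k (ll x') v (hzD x i) j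
      rw [hcz' x x' i hi, Nat.zero_mul, Nat.zero_mul] at h1
      exact h1
    have q2 : ∀ (y : Fin F → Fin m) (v : ↥(DD n B b) → ℕ) (j j' : ℕ),
        ff k (ll y) (update v ⟨zf B b M m i (y i), hzD y i⟩ j) = n →
        ff k (ll y) (update v ⟨zf B b M m i (y i), hzD y i⟩ j') = n → j = j' := by
      intro y v j j' h1 h2
      have h3 := ff_upd k (ll y) v (hzD y i) j
      have h4 := ff_upd k (ll y) v (hzD y i) j'
      rw [hcz y i, Nat.one_mul, Nat.one_mul, h1] at h3
      rw [hcz y i, Nat.one_mul, Nat.one_mul, h2] at h4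
      omega
    have hup := H.upper (S x) (S x') (P x) (P x') (z := ⟨zf B b M m i (x i), hzD x i⟩)
      (z' := ⟨zf B b M m i (x' i), hzD x' i⟩)
      (Finset.mem_insert_of_mem (Finset.mem_image.2 ⟨i, Finset.mem_univ _, rfl⟩))
      (Finset.mem_insert_of_mem (Finset.mem_image.2 ⟨i, Finset.mem_univ _, rfl⟩)) hzz
      (fun v j => by
        show ff k (ll x') (update v ⟨zf B b M m i (x i), hzD x i⟩ j) = n ↔ ff k (ll x') v = n
        rw [q1 v j])
      (fun v j j' h1 h2 => q2 x v j j' h1 h2) (fun v j j' h1 h2 => q2 x' v j j' h1 h2)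
    refine hup.trans ?_
    have e1 : ∀ w : ℕ, B * M ≤ w → δ / (h w : ℝ) ≤ δ / Hmin := by
      intro w hw
      refine div_le_div_of_nonneg_left hδ.le (by exact_mod_cast hmin0) ?_
      exact_mod_cast hmin.trans (hp.hmono hw)
    refine mul_le_mul (e1 _ (zf_ge _ _ _ _ _ _)) (e1 _ (zf_ge _ _ _ _ _ _)) ?_ ?_
    · positivity
    · positivity

end Pool.Agent.R500.WA
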