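import Mathlib
import Pool.Agent.R500.WA.Block

set_option autoImplicit false

/-!
# From expectations to probabilities; independence of the residue classes
-/

namespace Pool.Agent.R500.WA

open Finset Function MeasureTheory ProbabilityTheory
open scoped Classical

variable {Ω : Type*} [MeasurableSpace Ω] {μ : Measure Ω} [IsProbabilityMeasure μ]
  {ξ : ℕ → Ω → ℕ} {h : ℕ → ℕ} {δ : ℝ}

/-- The assumptions on the noise. -/
structure Noise (μ : Measure Ω) (ξ : ℕ → Ω → ℕ) (h : ℕ → ℕ) (δ : ℝ) : Prop where
  meas : ∀ x, Measurable (ξ x)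
  indep : iIndepFun ξ μ
  lt : ∀ x ω, ξ x ω < h x
  low : ∀ x j, j < h x → δ / h x ≤ μ.real {ω | ξ x ω = j}
  δpos : 0 < δ

/-- the law of the noise -/
noncomputable def nu (μ : Measure Ω) (ξ : ℕ → Ω → ℕ) (D : Finset ℕ) (i : ↥D) (j : ℕ) : ℝ :=
  μ.real {ω | ξ i ω = j}

omit [IsProbabilityMeasure μ] in
lemma meas_eq (H : Noise μ ξ h δ) (x j : ℕ) : MeasurableSet {ω | ξ x ω = j} :=
  H.meas x (measurableSet_singleton j)

lemma Noise.law (H : Noise μ ξ h δ) (D : Finset ℕ) :
    Law (fun i : ↥D => h i) (nu μ ξ D) δ := by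
  obtain ⟨ω₀⟩ : Nonempty Ω := by
    by_contra hcon
    rw [not_nonempty_iff] at hcon
    have h1 : μ Set.univ = 1 := measure_univ
    have h2 : (Set.univ : Set Ω) = ∅ := Set.eq_empty_of_isEmpty _
    rw [h2, measure_empty] at h1
    exact zero_ne_one h1
  refine ⟨fun i => (Nat.zero_le _).trans_lt (H.lt i ω₀), fun i j => measureReal_nonneg, ?_, ?_,
    H.δpos⟩
  · intro i
    have h1 := sum_measureReal_preimage_singleton (μ := μ) (range (h i)) (f := ξ i)
      (fun y _ => H.meas i (measurableSet_singleton y))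
    have h2 : ξ i ⁻¹' (↑(range (h i)) : Set ℕ) = Set.univ := by
      ext ω
      simp only [Set.mem_preimage, Set.mem_univ, iff_true]
      exact_mod_cast Finset.mem_range.2 (H.lt i ω)
    rw [h2] at h1
    have h3 : μ.real (Set.univ : Set Ω) = 1 := by simp
    rw [h3] at h1
    exact h1
  · intro i j hj
    exact H.low i j hj

lemma Noise.prob (H : Noise μ ξ h δ) (D : Finset ℕ) (s : (↥D → ℕ) → Prop) :
    Ex (fun i : ↥D => h i) (nu μ ξ D) (fun v => if s v then 1 else 0) ≤
      μ.real {ω | s (fun i : ↥D => ξ i ω)} := by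
  have h1 : Ex (fun i : ↥D => h i) (nu μ ξ D) (fun v => if s v then 1 else 0) =
      ∑ v ∈ (Box (fun i : ↥D => h i)).filter s, wt (nu μ ξ D) v := by
    unfold Ex
    rw [Finset.sum_filter]
    refine Finset.sum_congr rfl fun v _ => ?_
    by_cases hs : s v
    · simp only [if_pos hs, mul_one]
    · simp only [if_neg hs, mul_zero]
  have hind : iIndepFun (fun i : ↥D => ξ i) μ := H.indep.precomp Subtype.val_injective
  have h2 : ∀ v : ↥D → ℕ, wt (nu μ ξ D) v = μ.real (⋂ i : ↥D, {ω | ξ i ω = v i}) := by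
    intro v
    have h3 := hind.measure_inter_preimage_eq_mul (Finset.univ : Finset ↥D)
      (sets := fun i => {v i}) (fun i _ => measurableSet_singleton _)
    simp only [Finset.mem_univ, Set.iInter_true] at h3
    unfold wt nu
    rw [measureReal_def]
    have h4 : (⋂ i : ↥D, {ω | ξ i ω = v i}) = ⋂ i : ↥D, (fun i : ↥D => ξ i) i ⁻¹' {v i} := by
      rfl
    rw [h4, h3, ENNReal.toReal_prod]
    rfl
  rw [h1, Finset.sum_congr rfl (fun v _ => h2 v), ← measureReal_biUnion_finset]
  · refine measureReal_mono ?_ (measure_ne_top _ _)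
    intro ω hω
    simp only [Set.mem_iUnion, Set.mem_iInter, Set.mem_ofPred_eq] at hω
    obtain ⟨v, hv, hω⟩ := hω
    rw [Finset.mem_filter] at hv
    have : (fun i : ↥D => ξ i ω) = v := funext fun i => hω i
    rw [Set.mem_ofPred_eq, this]
    exact hv.2
  · intro v _ v' _ hne
    rw [Function.onFun, Set.disjoint_left]
    intro ω hω hω'
    simp only [Set.mem_iInter, Set.mem_ofPred_eq] at hω hω'
    exact hne (funext fun i => (hω i).symm.trans (hω' i))
  · intro v _
    exact MeasurableSet.iInter fun i => meas_eq H i (v i)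

/-- `n` is a sum of `t` moved powers. -/
def Rep (k t : ℕ) (a : ℕ → ℕ) (n : ℕ) : Prop :=
  ∃ l : List ℕ, l.length = t ∧ (∀ y ∈ l, 1 ≤ y) ∧ (l.map (fun y => y ^ k + a y)).sum = n

lemma Succ.rep {k t n B b : ℕ} {a : ℕ → ℕ} (hs : Succ k t n B b (fun i => a i)) :
    Rep k t a n := by
  obtain ⟨l, h1, h2, h3, h4⟩ := hs
  refine ⟨l, h1, h2, ?_⟩
  rw [← h4]
  unfold ff
  congr 1
  refine List.map_congr_left fun y hy => ?_
  unfold vv
  rw [dif_pos (h3 y hy)]

/-- **Independence of the residue classes.** -/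
theorem Noise.fail (H : Noise μ ξ h δ) {k t n B : ℕ} {p : ℝ} (hp1 : p ≤ 1)
    (hp : ∀ b < B, p ≤ Ex (fun i : ↥(DD n B b) => h i) (nu μ ξ (DD n B b))
      (fun v => if Succ k t n B b v then 1 else 0)) :
    μ.real {ω | ¬ Rep k t (fun x => ξ x ω) n} ≤ (1 - p) ^ B := by
  have key : ∀ c ≤ B, μ.real {ω | ∀ b < c, ¬ Succ k t n B b (fun i => ξ i ω)} ≤ (1 - p) ^ c := by
    intro c
    induction c with
    | zero =>
      intro _
      simp
    | succ c ih =>
      intro hc
      have ih' := ih (by omega)
      set U : Finset ℕ := (range (n + 1)).filter (fun x => x % B < c) with hU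
      have hsub : ∀ b < c, ∀ i ∈ DD n B b, i ∈ U := by
        intro b hb i hi
        rw [mem_DD] at hi
        rw [hU, Finset.mem_filter, Finset.mem_range]
        exact ⟨by omega, by omega⟩
      have hdis : Disjoint U (DD n B c) := by
        rw [Finset.disjoint_left]
        intro i hi hi'
        rw [hU, Finset.mem_filter] at hi
        rw [mem_DD] at hi'
        omega
      have hind := H.indep.indepFun_finset U (DD n B c) hdis H.meas
      set G : Set (↥U → ℕ) := {v | ∀ b (hb : b < c),
        ¬ Succ k t n B b (fun i => v ⟨i.1, hsub b hb i.1 i.2⟩)} with hG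
      set G' : Set (↥(DD n B c) → ℕ) := {v | ¬ Succ k t n B c v} with hG'
      have hmul := hind.measure_inter_preimage_eq_mul G G' (Set.to_countable _).measurableSet
        (Set.to_countable _).measurableSet
      have e1 : {ω | ∀ b < c + 1, ¬ Succ k t n B b (fun i => ξ i ω)} =
          (fun ω (i : ↥U) => ξ i ω) ⁻¹' G ∩ (fun ω (i : ↥(DD n B c)) => ξ i ω) ⁻¹' G' := by
        ext ω
        simp only [hG, hG', Set.mem_ofPred_eq, Set.mem_inter_iff, Set.mem_preimage]
        constructor
        · intro hω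
          exact ⟨fun b hb => hω b (by omega), hω c (by omega)⟩
        · intro hω b hb
          rcases Nat.lt_succ_iff_lt_or_eq.1 hb with hb | rfl
          · exact hω.1 b hb
          · exact hω.2
      have e2 : (fun ω (i : ↥U) => ξ i ω) ⁻¹' G =
          {ω | ∀ b < c, ¬ Succ k t n B b (fun i => ξ i ω)} := by
        ext ω
        simp only [hG, Set.mem_ofPred_eq, Set.mem_preimage]
      have e3 : μ.real ((fun ω (i : ↥(DD n B c)) => ξ i ω) ⁻¹' G') ≤ 1 - p := by
        have hpc := (hp c (by omega)).trans (H.prob (DD n B c) (Succ k t n B c))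
        have hcompl : (fun ω (i : ↥(DD n B c)) => ξ i ω) ⁻¹' G' =
            {ω | Succ k t n B c (fun i => ξ i ω)}ᶜ := by
          ext ω
          simp only [hG', Set.mem_ofPred_eq, Set.mem_preimage, Set.mem_compl_iff]
        have hms : MeasurableSet {ω | Succ k t n B c (fun i : ↥(DD n B c) => ξ i ω)} := by
          have hm : Measurable (fun ω (i : ↥(DD n B c)) => ξ i ω) :=
            measurable_pi_lambda _ fun i => H.meas i
          exact hm (Set.to_countable {v : ↥(DD n B c) → ℕ | Succ k t n B c v}).measurableSet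
        rw [hcompl, probReal_compl_eq_one_sub hms]
        linarith
      rw [e1, measureReal_def, hmul, ENNReal.toReal_mul, ← measureReal_def, ← measureReal_def,
        e2, pow_succ]
      exact mul_le_mul ih' e3 measureReal_nonneg (pow_nonneg (by linarith) _)
  refine le_trans (measureReal_mono ?_ (measure_ne_top _ _)) (key B le_rfl)
  intro ω hω b _ hs
  exact hω hs.rep

end Pool.Agent.R500.WA
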