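import Mathlib
import Pool.Agent.R500.WA.Prob

set_option autoImplicit false

/-!
# The choice of the parameters
-/

namespace Pool.Agent.R500.WA

open Finset Function MeasureTheory ProbabilityTheory Filter Topology
open scoped Classical

/-- The number of residue classes. -/
def BB (n : ℕ) : ℕ := Nat.log 2 n ^ 2 + 1

lemma log_le (n : ℕ) : (Nat.log 2 n : ℝ) ≤ 2 * Real.log n := by
  rcases Nat.eq_zero_or_pos n with rfl | hn
  · simp
  · have h1 : (2 : ℝ) ^ (Nat.log 2 n) ≤ n := by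
      have := Nat.pow_log_le_self 2 hn.ne'
      exact_mod_cast this
    have h2 := Real.log_le_log (by positivity) h1
    rw [Real.log_pow] at h2
    have h3 : (1 : ℝ) / 2 ≤ Real.log 2 := by
      have := Real.log_two_gt_d9
      linarith
    have h4 : (0 : ℝ) ≤ Nat.log 2 n := Nat.cast_nonneg _
    nlinarith

lemma le_log {n : ℕ} (hn : 16 ≤ n) : Real.log n ≤ Nat.log 2 n := by
  have h1 : (n : ℝ) < 2 ^ (Nat.log 2 n + 1) := by
    have := Nat.lt_pow_succ_log_self (b := 2) (by norm_num) n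
    exact_mod_cast this
  have hn0 : (0 : ℝ) < n := by positivity
  have h2 := Real.log_lt_log hn0 h1
  rw [Real.log_pow] at h2
  push_cast at h2
  have h3 := Real.log_two_lt_d9
  have h4 : (4 : ℝ) ≤ Nat.log 2 n := by
    have : 4 ≤ Nat.log 2 n := by
      refine Nat.le_log_of_pow_le (by norm_num) ?_
      norm_num
      exact hn
    exact_mod_cast this
  nlinarith

lemma poly_le (c : ℝ) (j : ℕ) {ε : ℝ} (hε : 0 < ε) :
    ∀ᶠ n : ℕ in atTop, c * (BB n : ℝ) ^ j ≤ (n : ℝ) ^ ε := by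
  have h1 := (isLittleO_log_rpow_rpow_atTop (2 * j : ℝ) hε).comp_tendsto
    tendsto_natCast_atTop_atTop
  have h2 : ∀ᶠ n : ℕ in atTop, (1 : ℝ) ≤ Real.log n := by
    have := (Real.tendsto_log_atTop.comp tendsto_natCast_atTop_atTop).eventually_ge_atTop (1 : ℝ)
    exact this
  have hc : (0 : ℝ) < |c| * 5 ^ j + 1 := by positivity
  have h3 := h1.def (c := (|c| * 5 ^ j + 1)⁻¹) (by positivity)
  filter_upwards [h2, h3] with n hn1 hn3
  simp only [Function.comp_apply, Real.norm_eq_abs] at hn3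
  have hL0 : (0 : ℝ) ≤ Real.log n := by linarith
  have e1 : (BB n : ℝ) ≤ 5 * Real.log n ^ 2 := by
    unfold BB
    push_cast
    have := log_le n
    have h0 : (0 : ℝ) ≤ Nat.log 2 n := Nat.cast_nonneg _
    nlinarith
  have e2 : (BB n : ℝ) ^ j ≤ 5 ^ j * Real.log n ^ (2 * (j : ℝ)) := by
    calc (BB n : ℝ) ^ j ≤ (5 * Real.log n ^ 2) ^ j := pow_le_pow_left₀ (Nat.cast_nonneg _) e1 _
      _ = 5 ^ j * Real.log n ^ (2 * (j : ℝ)) := by
        rw [mul_pow, ← pow_mul]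
        congr 1
        rw [← Real.rpow_natCast]
        push_cast
        rfl
  have hnn : (0 : ℝ) ≤ (n : ℝ) ^ ε := Real.rpow_nonneg (Nat.cast_nonneg n) ε
  rw [abs_of_nonneg (Real.rpow_nonneg hL0 _), abs_of_nonneg hnn] at hn3
  have e3 : 0 ≤ Real.log n ^ (2 * (j : ℝ)) := Real.rpow_nonneg hL0 _
  have e4 : (|c| * 5 ^ j + 1) * Real.log n ^ (2 * (j : ℝ)) ≤ (n : ℝ) ^ ε := by
    rwa [inv_mul_eq_div, le_div_iff₀' hc] at hn3
  calc c * (BB n : ℝ) ^ j ≤ |c| * (BB n : ℝ) ^ j :=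
        mul_le_mul_of_nonneg_right (le_abs_self c) (by positivity)
    _ ≤ |c| * (5 ^ j * Real.log n ^ (2 * (j : ℝ))) :=
        mul_le_mul_of_nonneg_left e2 (abs_nonneg c)
    _ ≤ (|c| * 5 ^ j + 1) * Real.log n ^ (2 * (j : ℝ)) := by nlinarith
    _ ≤ _ := e4

lemma poly_le' (c : ℝ) (j : ℕ) {a b : ℝ} (hab : a < b) :
    ∀ᶠ n : ℕ in atTop, c * (BB n : ℝ) ^ j * (n : ℝ) ^ a ≤ (n : ℝ) ^ b := by
  filter_upwards [poly_le c j (sub_pos.2 hab), eventually_gt_atTop 0] with n hn hn0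
  have h0 : (0 : ℝ) < n := by exact_mod_cast hn0
  calc c * (BB n : ℝ) ^ j * (n : ℝ) ^ a ≤ (n : ℝ) ^ (b - a) * (n : ℝ) ^ a :=
        mul_le_mul_of_nonneg_right hn (by positivity)
    _ = _ := by rw [← Real.rpow_add h0]; congr 1; ring

/-- The number of possible values of the noise of `x ^ k`. -/
noncomputable def hh (e : ℝ) (x : ℕ) : ℕ := ⌊(x : ℝ) ^ e⌋₊ + 1

lemma hh_mono {e : ℝ} (he : 0 ≤ e) : Monotone (hh e) := by
  intro x y hxy
  unfold hh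
  have : ⌊(x : ℝ) ^ e⌋₊ ≤ ⌊(y : ℝ) ^ e⌋₊ :=
    Nat.floor_le_floor (Real.rpow_le_rpow (Nat.cast_nonneg _) (by exact_mod_cast hxy) he)
  omega

lemma hh_le {e : ℝ} (he : 0 ≤ e) {w : ℕ} {u : ℝ} (hw : (w : ℝ) ≤ u) :
    (hh e w : ℝ) ≤ u ^ e + 1 := by
  unfold hh
  push_cast
  have h1 := Nat.floor_le (Real.rpow_nonneg (Nat.cast_nonneg (α := ℝ) w) e)
  have h2 := Real.rpow_le_rpow (Nat.cast_nonneg _) hw he
  linarith

lemma hh_gt {e : ℝ} (he : 0 ≤ e) {w : ℕ} {u : ℝ} (hu : 0 ≤ u) (hw : u ≤ w) :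
    u ^ e < (hh e w : ℝ) := by
  unfold hh
  push_cast
  have h1 := Nat.lt_floor_add_one ((w : ℝ) ^ e)
  have h2 := Real.rpow_le_rpow hu hw he
  linarith

lemma exists_D (F J : ℕ) {e : ℝ} (he : 0 < e) :
    ∃ D : ℕ, 16 ≤ D ∧ 16 * F ≤ D ∧ ((F + J : ℕ) : ℝ) * (2 / (D : ℝ)) ^ e ≤ (1 / 8) ^ e / 4 := by
  have h1 : Tendsto (fun D : ℕ => ((F + J : ℕ) : ℝ) * (2 / (D : ℝ)) ^ e) atTop (𝓝 0) := by
    have h2 := (tendsto_const_div_atTop_nhds_zero_nat (2 : ℝ)).rpow_const (p := e)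
      (Or.inr he.le)
    rw [Real.zero_rpow he.ne'] at h2
    simpa using h2.const_mul ((F + J : ℕ) : ℝ)
  have h3 : (0 : ℝ) < (1 / 8) ^ e / 4 := by positivity
  have h4 := (h1.eventually (ge_mem_nhds h3)).and
    ((eventually_ge_atTop 16).and (eventually_ge_atTop (16 * F)))
  obtain ⟨D, hD1, hD2, hD3⟩ := h4.exists
  exact ⟨D, hD2, hD3, hD1⟩


/-- The lower bound for the number of blocks, in real form. -/
lemma final_ineq {F : ℕ} {δ c₁ S N Hx Hn : ℝ} (hδ0 : 0 < δ) (hδ1 : δ ≤ 1) (hc₁ : 0 < c₁)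
    (hS : 0 < S) (hN0 : 0 ≤ N) (hN_le : N ≤ δ ^ F * c₁ ^ 2 / 8 * S)
    (hN_ge : δ ^ F * c₁ ^ 2 / 8 * S / 2 ≤ N) (hHx0 : 0 < Hx) (hHx : Hx ≤ 2 * S)
    (hHn : c₁ * S ≤ Hn) :
    δ ^ F * c₁ ^ 2 / 8 * δ ^ (F + 1) / 16 ≤
      N * (δ ^ (F + 1) / Hx) - N * N * (δ / Hn * (δ / Hn)) := by
  have hc₁S : 0 < c₁ * S := mul_pos hc₁ hS
  have hHn0 : 0 < Hn := hc₁S.trans_le hHn
  have hp : 0 < δ ^ (F + 1) := pow_pos hδ0 _
  have h1 : δ / Hn * (δ / Hn) ≤ δ ^ 2 / (c₁ * S) ^ 2 := by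
    have h2 : δ / Hn ≤ δ / (c₁ * S) := div_le_div_of_nonneg_left hδ0.le hc₁S hHn
    have h3 : (0 : ℝ) ≤ δ / Hn := (div_pos hδ0 hHn0).le
    calc _ ≤ δ / (c₁ * S) * (δ / (c₁ * S)) := mul_le_mul h2 h2 h3 (h3.trans h2)
      _ = _ := by rw [div_mul_div_comm, pow_two, pow_two]
  have h2 : δ ^ (F + 1) / (2 * S) ≤ δ ^ (F + 1) / Hx :=
    div_le_div_of_nonneg_left hp.le hHx0 hHx
  have h3 : N * (δ ^ 2 / (c₁ * S) ^ 2) ≤ δ ^ (F + 1) / (4 * S) := by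
    have h4 : N * (δ ^ 2 / (c₁ * S) ^ 2) ≤ δ ^ F * c₁ ^ 2 / 8 * S * (δ ^ 2 / (c₁ * S) ^ 2) :=
      mul_le_mul_of_nonneg_right hN_le (by positivity)
    have h5 : δ ^ F * c₁ ^ 2 / 8 * S * (δ ^ 2 / (c₁ * S) ^ 2) = δ ^ (F + 2) / (8 * S) := by
      rw [div_mul_eq_mul_div, div_mul_div_comm, div_eq_div_iff (by positivity) (by positivity)]
      ring
    have h6 : δ ^ (F + 2) / (8 * S) ≤ δ ^ (F + 1) / (4 * S) := by
      have h7 : δ ^ (F + 2) ≤ δ ^ (F + 1) := pow_le_pow_of_le_one hδ0.le hδ1 (by omega)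
      refine div_le_div₀ hp.le h7 (by linarith only [hS]) (by linarith only [hS])
    exact h4.trans (h5.le.trans h6)
  have h4 : N * (δ ^ (F + 1) / (2 * S)) - N * (δ ^ (F + 1) / (4 * S)) ≤
      N * (δ ^ (F + 1) / Hx) - N * N * (δ / Hn * (δ / Hn)) := by
    have h5 := mul_le_mul_of_nonneg_left h2 hN0
    have h6 : N * N * (δ / Hn * (δ / Hn)) ≤ N * (δ ^ (F + 1) / (4 * S)) := by
      calc _ ≤ N * N * (δ ^ 2 / (c₁ * S) ^ 2) :=
            mul_le_mul_of_nonneg_left h1 (mul_nonneg hN0 hN0)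
        _ = N * (N * (δ ^ 2 / (c₁ * S) ^ 2)) := by rw [mul_assoc]
        _ ≤ _ := mul_le_mul_of_nonneg_left h3 hN0
    linarith only [h5, h6]
  refine le_trans ?_ h4
  have h5 : N * (δ ^ (F + 1) / (2 * S)) - N * (δ ^ (F + 1) / (4 * S)) =
      N * (δ ^ (F + 1) / (4 * S)) := by
    have : δ ^ (F + 1) / (2 * S) = 2 * (δ ^ (F + 1) / (4 * S)) := by
      rw [← mul_div_assoc, div_eq_div_iff (by positivity) (by positivity)]
      ring
    rw [this]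
    ring
  rw [h5]
  have h6 : (0 : ℝ) ≤ δ ^ (F + 1) / (4 * S) := by positivity
  calc δ ^ F * c₁ ^ 2 / 8 * δ ^ (F + 1) / 16 ≤
        δ ^ F * c₁ ^ 2 / 8 * S / 2 * (δ ^ (F + 1) / (4 * S)) := by
        have : δ ^ F * c₁ ^ 2 / 8 * S / 2 * (δ ^ (F + 1) / (4 * S)) =
            δ ^ F * c₁ ^ 2 / 8 * δ ^ (F + 1) / 8 := by
          rw [div_mul_div_comm, div_eq_div_iff (by positivity) (by norm_num)]
          ring
        rw [this]
        have h7 : 0 ≤ δ ^ F * c₁ ^ 2 / 8 * δ ^ (F + 1) := by positivity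
        linarith only [h7]
    _ ≤ _ := mul_le_mul_of_nonneg_right hN_ge h6

/-- The number of tuples is large enough. -/
lemma tuples_ineq {k F n M m N : ℕ} {c₂ D B X S : ℝ} (hF1 : 1 ≤ F) (hD : 0 < D) (hB : 1 ≤ B)
    (hX0 : 0 < X) (hX : X = (n : ℝ) ^ (1 / (k : ℝ))) (hn0 : (0 : ℝ) < n)
    (hS0 : 0 < S) (hc₂1 : c₂ ≤ 1) (hN_le : (N : ℝ) ≤ c₂ * S) (hm : m = M / F)
    (hM : X / (D * B) / 2 ≤ M)
    (E9 : 4 * D * F * B ≤ X) (E10 : (4 * D * F) ^ F * B ^ F * S ≤ (n : ℝ) ^ ((F : ℝ) / k)) :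
    N ≤ m ^ F := by
  have hF0 : (0 : ℝ) < F := by exact_mod_cast hF1
  have hB0 : 0 < B := by linarith only [hB]
  have h1 : X / (4 * D * F * B) ≤ m := by
    have h2 : (M : ℝ) / F < m + 1 := by
      have h3 := Nat.lt_div_mul_add (a := M) (b := F) hF1
      rw [← hm] at h3
      rw [div_lt_iff₀ hF0]
      have h4 : (M : ℝ) < m * F + F := by exact_mod_cast h3
      linarith only [h4]
    have h3 : X / (2 * D * F * B) ≤ (M : ℝ) / F := by
      rw [le_div_iff₀ hF0]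
      have : X / (2 * D * F * B) * F = X / (D * B) / 2 := by
        rw [div_div, div_mul_eq_mul_div, div_eq_div_iff (by positivity) (by positivity)]
        ring
      rw [this]
      exact hM
    have h4 : 2 ≤ X / (2 * D * F * B) := by
      rw [le_div_iff₀ (by positivity)]
      linarith only [E9]
    have h5 : X / (4 * D * F * B) = X / (2 * D * F * B) / 2 := by
      rw [div_div, div_eq_div_iff (by positivity) (by positivity)]
      ring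
    rw [h5]
    linarith only [h2, h3, h4]
  have h2 : (X / (4 * D * F * B)) ^ F ≤ (m : ℝ) ^ F := pow_le_pow_left₀ (by positivity) h1 _
  have h3 : S ≤ (X / (4 * D * F * B)) ^ F := by
    rw [div_pow, le_div_iff₀ (by positivity), mul_pow]
    have h4 : X ^ F = (n : ℝ) ^ ((F : ℝ) / k) := by
      rw [hX, ← Real.rpow_natCast, ← Real.rpow_mul hn0.le]
      congr 1
      rw [one_div, inv_mul_eq_div]
    rw [h4, mul_comm]
    exact E10
  have h4 : (N : ℝ) ≤ (m : ℝ) ^ F := by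
    refine le_trans ?_ (h3.trans h2)
    refine hN_le.trans ?_
    exact mul_le_of_le_one_left hS0.le hc₂1
  exact_mod_cast h4

/-- The size of the greedy sum. -/
lemma size_ineq {k F J n L Y B M : ℕ} {e D X S : ℝ} (hk : 1 ≤ k) (hF1 : 1 ≤ F)
    (hB1 : 1 ≤ B) (hn0 : (0 : ℝ) < n)
    (hD16 : (16 : ℝ) ≤ D) (hDF : (16 : ℝ) * F ≤ D) (hXk : X ^ k = n) (hS0 : 0 < S)
    (hS1 : 1 ≤ S)
    (h8e : (1 / 8 : ℝ) ^ e ≤ 1) (h8e0 : (0 : ℝ) < (1 / 8) ^ e)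
    (h2BM : ((2 * B * M : ℕ) : ℝ) ≤ 2 / D * X) (hY_le : (Y : ℝ) ≤ X / 4)
    (hBX : 8 * D * B ≤ X)
    (hL_le : (L : ℝ) ≤ (1 / 8) ^ e / 4 * S + (F + J))
    (E2 : 16 * ((F : ℝ) + J) * S ≤ n) (E3 : 16 * (J : ℝ) * 2 ^ k * (B : ℝ) ^ k ≤ n) :
    F * (2 * B * M) ^ k + L + J * (2 * B) ^ k + (Y + B) ^ k ≤ n := by
  have hF0 : (0 : ℝ) < F := by exact_mod_cast hF1
  have hD0 : 0 < D := by linarith only [hD16]
  have h1 : (F : ℝ) * ((2 * B * M : ℕ) : ℝ) ^ k ≤ n / 8 := by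
    have h2 : ((2 * B * M : ℕ) : ℝ) ^ k ≤ (2 / D * X) ^ k :=
      pow_le_pow_left₀ (Nat.cast_nonneg _) h2BM _
    rw [mul_pow, hXk] at h2
    have h3 : (2 / (D : ℝ)) ^ k ≤ 2 / D := by
      refine pow_le_of_le_one (by positivity) ?_ (by omega)
      rw [div_le_one hD0]; linarith only [hD16]
    have h5 : (F : ℝ) * (2 / D) ≤ 1 / 8 := by
      rw [mul_div_assoc', div_le_div_iff₀ hD0 (by norm_num)]; linarith only [hDF]
    calc (F : ℝ) * ((2 * B * M : ℕ) : ℝ) ^ k ≤ F * ((2 / D) ^ k * n) :=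
          mul_le_mul_of_nonneg_left h2 hF0.le
      _ ≤ F * (2 / D * n) := by
          refine mul_le_mul_of_nonneg_left ?_ hF0.le
          exact mul_le_mul_of_nonneg_right h3 hn0.le
      _ = F * (2 / D) * n := by rw [mul_assoc]
      _ ≤ 1 / 8 * n := mul_le_mul_of_nonneg_right h5 hn0.le
      _ = n / 8 := by rw [one_div, inv_mul_eq_div]
  have h2 : (L : ℝ) ≤ n / 8 := by
    have h4 : (1 : ℝ) ≤ F := by exact_mod_cast hF1
    have h5 : (0 : ℝ) ≤ J := Nat.cast_nonneg _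
    have h6 : (1 / 8 : ℝ) ^ e / 4 * S ≤ (F + J) * S := by
      refine mul_le_mul_of_nonneg_right ?_ hS0.le
      linarith only [h8e, h8e0, h4, h5]
    have h7 : (F : ℝ) + J ≤ (F + J) * S :=
      le_mul_of_one_le_right (by linarith only [h4, h5]) hS1
    linarith only [h6, h7, E2, hL_le]
  have h3 : (J : ℝ) * (2 * B) ^ k ≤ n / 16 := by
    rw [mul_pow]
    linarith only [E3]
  have h4 : ((Y : ℝ) + B) ^ k ≤ n / 2 := by
    have hB0 : (1 : ℝ) ≤ B := by exact_mod_cast hB1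
    have h5 : (B : ℝ) ≤ X / 4 := by
      have : (4 : ℝ) * B ≤ 8 * D * B := by
        refine mul_le_mul_of_nonneg_right ?_ (by linarith only [hB0])
        linarith only [hD16]
      linarith only [this, hBX]
    have h6 : (Y : ℝ) + B ≤ 1 / 2 * X := by linarith only [h5, hY_le]
    have h7 : ((Y : ℝ) + B) ^ k ≤ (1 / 2 * X) ^ k := pow_le_pow_left₀ (by positivity) h6 _
    rw [mul_pow, hXk] at h7
    have h8 : (1 / 2 : ℝ) ^ k ≤ 1 / 2 :=
      pow_le_of_le_one (by norm_num) (by norm_num) (by omega)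
    have := mul_le_mul_of_nonneg_right h8 hn0.le
    linarith only [this, h7]
  have h5 : ((F * (2 * B * M) ^ k + L + J * (2 * B) ^ k + (Y + B) ^ k : ℕ) : ℝ) ≤ n := by
    push_cast
    push_cast at h1
    linarith only [h1, h2, h3, h4, hn0]
  exact_mod_cast h5

/-- The small blocks are not too small. -/
lemma small_ineq {k n B M : ℕ} {a₁ D X : ℝ} (hn0 : (0 : ℝ) < n) (hD0 : 0 < D) (hX0 : 0 < X)
    (hXk : X ^ k = n) (hA : A k B = a₁ * B) (hBM_ge : X / (2 * D) ≤ (B : ℝ) * M)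
    (E4 : 2 * (2 * D) ^ k * a₁ * B * (n : ℝ) ^ θ k ≤ n)
    (E5 : 4 * (2 * D) ^ k * 2 ^ k * (B : ℝ) ^ k ≤ n) :
    A k B * (n : ℝ) ^ θ k + (2 * B) ^ k < (B * M) ^ k := by
  rw [hA]
  have h1 : ((n : ℝ) / (2 * D) ^ k) ≤ ((B : ℝ) * M) ^ k := by
    have h2 : (X / (2 * D)) ^ k ≤ ((B : ℝ) * M) ^ k :=
      pow_le_pow_left₀ (by positivity) hBM_ge _
    rwa [div_pow, hXk] at h2
  have hDk : (0 : ℝ) < (2 * D) ^ k := by positivity
  have h3 : a₁ * (B : ℝ) * (n : ℝ) ^ θ k ≤ n / (2 * D) ^ k / 2 := by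
    rw [div_div, le_div_iff₀ (by positivity)]
    linarith only [E4]
  have h4 : (2 * (B : ℝ)) ^ k ≤ n / (2 * D) ^ k / 4 := by
    rw [div_div, le_div_iff₀ (by positivity), mul_pow]
    linarith only [E5]
  have h5 : (0 : ℝ) < n / (2 * D) ^ k := by positivity
  linarith only [h1, h3, h4, h5]

/-- The final remainder fits into the noise range. -/
lemma rem_ineq {k F J n B L : ℕ} {e a₁ S h : ℝ} (hk : 1 ≤ k) (hB1 : 1 ≤ B) (hn0 : (0 : ℝ) < n)
    (hS0 : 0 < S) (hA : A k B = a₁ * B) (h8e0 : (0 : ℝ) < (1 / 8) ^ e)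
    (hL_le : (L : ℝ) ≤ (1 / 8) ^ e / 4 * S + (F + J)) (h1 : (1 / 8) ^ e * S < h)
    (E6 : 8 * ((F : ℝ) + J + 1) / (1 / 8) ^ e ≤ S)
    (E7 : 8 * ((J : ℝ) + 1) * 2 ^ k / (1 / 8) ^ e * (B : ℝ) ^ k ≤ S)
    (E8 : 8 * a₁ ^ (J + 1) / (1 / 8) ^ e * (B : ℝ) ^ (J + 1) * (n : ℝ) ^ (θ k ^ (J + 1)) ≤ S) :
    (L : ℝ) + (J + 1) * (2 * B) ^ k + A k B ^ J * (A k B * (n : ℝ) ^ θ k) ^ (θ k ^ J) < h := by
  have hθ0 := θ_nonneg hk
  have hθ1 := θ_lt hk
  refine lt_of_le_of_lt ?_ h1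
  have h2 : ((F : ℝ) + J) ≤ (1 / 8) ^ e / 8 * S := by
    rw [div_le_iff₀ h8e0] at E6
    linarith only [E6]
  have h3 : ((J : ℝ) + 1) * (2 * B) ^ k ≤ (1 / 8) ^ e / 8 * S := by
    rw [div_mul_eq_mul_div, div_le_iff₀ h8e0] at E7
    rw [mul_pow]
    linarith only [E7]
  have h4 : A k B ^ J * (A k B * (n : ℝ) ^ θ k) ^ (θ k ^ J) ≤ (1 / 8) ^ e / 8 * S := by
    have hA1 := one_le_A hk hB1
    have hA0 : 0 ≤ A k B := by linarith only [hA1]
    have h5 : (A k B * (n : ℝ) ^ θ k) ^ (θ k ^ J) ≤ A k B * (n : ℝ) ^ (θ k ^ (J + 1)) := by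
      rw [Real.mul_rpow hA0 (by positivity), ← Real.rpow_mul hn0.le, ← pow_succ']
      refine mul_le_mul_of_nonneg_right ?_ (by positivity)
      calc A k B ^ (θ k ^ J) ≤ A k B ^ (1 : ℝ) :=
            Real.rpow_le_rpow_of_exponent_le hA1 (pow_le_one₀ hθ0 hθ1.le)
        _ = _ := Real.rpow_one _
    have h6 : A k B ^ J * (A k B * (n : ℝ) ^ θ k) ^ (θ k ^ J) ≤
        A k B ^ (J + 1) * (n : ℝ) ^ (θ k ^ (J + 1)) := by
      have := mul_le_mul_of_nonneg_left h5 (by positivity : (0 : ℝ) ≤ A k B ^ J)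
      calc _ ≤ A k B ^ J * (A k B * (n : ℝ) ^ (θ k ^ (J + 1))) := this
        _ = _ := by rw [pow_succ (A k B) J, mul_assoc]
    refine h6.trans ?_
    rw [hA, mul_pow]
    have e1 : 8 * a₁ ^ (J + 1) / (1 / 8) ^ e * (B : ℝ) ^ (J + 1) *
        (n : ℝ) ^ (θ k ^ (J + 1)) =
        (8 * a₁ ^ (J + 1) * (B : ℝ) ^ (J + 1) * (n : ℝ) ^ (θ k ^ (J + 1))) /
          (1 / 8) ^ e := by rw [div_mul_eq_mul_div, div_mul_eq_mul_div]
    rw [e1, div_le_iff₀ h8e0] at E8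
    linarith only [E8]
  linarith only [h2, h3, h4, hL_le]

/-- **The uniform lower bound for all large `n` and all residue classes.** -/
theorem eventually_block {k F J : ℕ} {η δ : ℝ} (hk : 1 ≤ k) (hη0 : 0 < η) (hη1 : η < 1)
    (hF : η * k < F) (hJ : θ k ^ (J + 1) < η) (hδ0 : 0 < δ) (hδ1 : δ ≤ 1) :
    ∃ p : ℝ, 0 < p ∧ p ≤ 1 ∧ ∀ᶠ n : ℕ in atTop, ∀ b < BB n, ∀ ν : ↥(DD n (BB n) b) → ℕ → ℝ,
      Law (fun i : ↥(DD n (BB n) b) => hh (η * k) i) ν δ →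
        p ≤ Ex (fun i : ↥(DD n (BB n) b) => hh (η * k) i) ν
          (fun v => if Succ k (F + 1 + J) n (BB n) b v then 1 else 0) := by
  have hk0 : (0 : ℝ) < k := by exact_mod_cast hk
  obtain ⟨e, he⟩ : ∃ e : ℝ, e = η * k := ⟨_, rfl⟩
  rw [← he]
  have he0 : 0 < e := by rw [he]; positivity
  have hF0 : (0 : ℝ) < F := (by rw [← he] at hF; exact he0.trans hF)
  have hF1 : 1 ≤ F := by exact_mod_cast hF0
  obtain ⟨D, hD16, hDF, hDL⟩ := exists_D F J he0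
  have hD0 : (0 : ℝ) < D := by positivity
  have hD16' : (16 : ℝ) ≤ D := by exact_mod_cast hD16
  obtain ⟨c₁, hc₁⟩ : ∃ c₁ : ℝ, c₁ = (1 / (2 * D)) ^ e := ⟨_, rfl⟩
  have hc₁0 : 0 < c₁ := by rw [hc₁]; positivity
  have hc₁1 : c₁ ≤ 1 := by
    rw [hc₁]
    refine Real.rpow_le_one (by positivity) ?_ he0.le
    rw [div_le_one (by positivity)]
    linarith only [hD16']
  obtain ⟨c₂, hc₂⟩ : ∃ c₂ : ℝ, c₂ = δ ^ F * c₁ ^ 2 / 8 := ⟨_, rfl⟩
  have hc₂0 : 0 < c₂ := by rw [hc₂]; positivity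
  have hc₂1 : c₂ ≤ 1 := by
    have h1 : δ ^ F ≤ 1 := pow_le_one₀ hδ0.le hδ1
    have h2 : c₁ ^ 2 ≤ 1 := pow_le_one₀ hc₁0.le hc₁1
    have h3 : δ ^ F * c₁ ^ 2 ≤ 1 * 1 := mul_le_mul h1 h2 (by positivity) zero_le_one
    rw [hc₂]; linarith only [h3]
  refine ⟨c₂ * δ ^ (F + 1) / 16, by positivity, ?_, ?_⟩
  · have h1 : δ ^ (F + 1) ≤ 1 := pow_le_one₀ hδ0.le hδ1
    have h2 : c₂ * δ ^ (F + 1) ≤ 1 * 1 := mul_le_mul hc₂1 h1 (by positivity) zero_le_one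
    linarith only [h2]
  -- the asymptotic inequalities
  have hθ1 := θ_lt hk
  have hkinv : (0 : ℝ) < 1 / k := by positivity
  have hFk : η < (F : ℝ) / k := by rw [lt_div_iff₀ hk0]; exact hF
  obtain ⟨a₁, ha₁⟩ : ∃ a₁ : ℝ, a₁ = k * 2 ^ (k - 1) := ⟨_, rfl⟩
  have hAB : ∀ n : ℕ, A k (BB n) = a₁ * (BB n : ℝ) := fun n => by
    unfold A; rw [ha₁]; ring
  have E1 := poly_le (8 * D : ℝ) 1 hkinv
  have E2 := poly_le' (16 * (F + J : ℝ)) 0 hη1
  have E3 := poly_le' (16 * (J : ℝ) * 2 ^ k) k (zero_lt_one)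
  have E4 := poly_le' (2 * (2 * D) ^ k * a₁ : ℝ) 1 hθ1
  have E5 := poly_le' (4 * (2 * D) ^ k * 2 ^ k : ℝ) k (zero_lt_one)
  have E6 := poly_le (8 * (F + J + 1 : ℝ) / (1 / 8) ^ e) 0 hη0
  have E7 := poly_le (8 * ((J : ℝ) + 1) * 2 ^ k / (1 / 8) ^ e) k hη0
  have E8 := poly_le' (8 * a₁ ^ (J + 1) / (1 / 8) ^ e : ℝ) (J + 1) hJ
  have E9 := poly_le' (4 * D * F : ℝ) 1 (show (0 : ℝ) < 1 / k from hkinv)
  have E10 := poly_le' ((4 * D * F : ℝ) ^ F) F hFk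
  have E11 := poly_le (2 / c₂) 0 hη0
  filter_upwards [E1, E2, E3, E4, E5, E6, E7, E8, E9, E10, E11, eventually_gt_atTop 1] with n
    E1 E2 E3 E4 E5 E6 E7 E8 E9 E10 E11 hn1
  intro b hb ν H
  have hn0 : (0 : ℝ) < n := by
    have : 0 < n := by omega
    exact_mod_cast this
  have hnone : (1 : ℝ) ≤ n := by exact_mod_cast hn1.le
  simp only [pow_zero, mul_one, Real.rpow_one, Real.rpow_zero, pow_one] at E1 E2 E3 E4 E5 E6 E7 E8 E9 E10 E11
  have hAB' := hAB n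
  clear hAB
  have hB1 : 1 ≤ BB n := by unfold BB; omega
  generalize BB n = B at *
  have hB0 : (1 : ℝ) ≤ B := by exact_mod_cast hB1
  obtain ⟨X, hX⟩ : ∃ X : ℝ, X = (n : ℝ) ^ (1 / (k : ℝ)) := ⟨_, rfl⟩
  rw [← hX] at E1 E9
  have hX0 : 0 < X := by rw [hX]; positivity
  have hXk : X ^ k = n := by
    rw [hX, ← Real.rpow_natCast, ← Real.rpow_mul hn0.le, one_div, inv_mul_cancel₀ hk0.ne',
      Real.rpow_one]
  have hXe : X ^ e = (n : ℝ) ^ η := by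
    rw [hX, ← Real.rpow_mul hn0.le]
    congr 1
    rw [he, one_div, mul_comm, mul_assoc, mul_inv_cancel₀ hk0.ne', mul_one]
  obtain ⟨S, hS⟩ : ∃ S : ℝ, S = (n : ℝ) ^ η := ⟨_, rfl⟩
  rw [← hS] at E2 E6 E7 E8 E10 E11 hXe
  have hS0 : 0 < S := by rw [hS]; positivity
  have hS1 : 1 ≤ S := by rw [hS]; exact Real.one_le_rpow hnone hη0.le
  have hDB0 : (0 : ℝ) < D * B := by positivity
  -- the choice of `M`
  obtain ⟨M, hM⟩ : ∃ M : ℕ, M = ⌊X / (D * B)⌋₊ := ⟨_, rfl⟩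
  have hM_le : (M : ℝ) ≤ X / (D * B) := by rw [hM]; exact Nat.floor_le (by positivity)
  have hM_gt : X / (D * B) < M + 1 := by rw [hM]; exact Nat.lt_floor_add_one _
  have hXDB : 8 ≤ X / (D * B) := by
    rw [le_div_iff₀ hDB0]
    calc (8 : ℝ) * (D * B) = 8 * D * B := by ring
      _ ≤ X := E1
  have hM1 : 1 ≤ M := by
    have : (0 : ℝ) < M := by linarith only [hM_gt, hXDB]
    exact_mod_cast this
  have hM2 : X / (D * B) / 2 ≤ M := by linarith only [hM_gt, hXDB]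
  have hBM_le : (B : ℝ) * M ≤ X / D := by
    calc (B : ℝ) * M ≤ B * (X / (D * B)) := mul_le_mul_of_nonneg_left hM_le (by positivity)
      _ = X / D := by rw [mul_div_assoc', div_eq_div_iff hDB0.ne' hD0.ne']; ring
  have hBM_ge : X / (2 * D) ≤ (B : ℝ) * M := by
    calc X / (2 * D) = B * (X / (D * B) / 2) := by
          rw [div_div, mul_div_assoc', div_eq_div_iff (by positivity) (by positivity)]; ring
      _ ≤ _ := mul_le_mul_of_nonneg_left hM2 (by positivity)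
  obtain ⟨Y, hY⟩ : ∃ Y : ℕ, Y = ⌊X / 4⌋₊ := ⟨_, rfl⟩
  have hX64 : 128 ≤ X := by
    have h1 : (8 : ℝ) * 16 * 1 ≤ 8 * (D : ℝ) * B :=
      mul_le_mul (by linarith only [hD16']) hB0 zero_le_one (by positivity)
    linarith only [h1, E1]
  have hY_le : (Y : ℝ) ≤ X / 4 := by rw [hY]; exact Nat.floor_le (by positivity)
  have hY_gt : X / 4 < Y + 1 := by rw [hY]; exact Nat.lt_floor_add_one (X / 4)
  have hY_ge : X / 8 ≤ Y := by linarith only [hY_gt, hX64]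
  obtain ⟨L, hL⟩ : ∃ L : ℕ, L = (F + J) * hh e (2 * B * M) := ⟨_, rfl⟩
  have h2BM : ((2 * B * M : ℕ) : ℝ) ≤ 2 / D * X := by
    push_cast
    calc (2 : ℝ) * B * M = 2 * (B * M) := by ring
      _ ≤ 2 * (X / D) := mul_le_mul_of_nonneg_left hBM_le (by norm_num)
      _ = _ := by ring
  have hL_le : (L : ℝ) ≤ (1 / 8) ^ e / 4 * S + (F + J) := by
    have h1 := hh_le he0.le h2BM
    rw [Real.mul_rpow (by positivity) hX0.le, hXe] at h1
    rw [hL]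
    push_cast
    push_cast at hDL
    have h2 : (0 : ℝ) ≤ (F : ℝ) + J := by positivity
    calc ((F : ℝ) + J) * (hh e (2 * B * M) : ℝ) ≤ (F + J) * ((2 / (D : ℝ)) ^ e * S + 1) :=
          mul_le_mul_of_nonneg_left h1 h2
      _ = (F + J) * (2 / (D : ℝ)) ^ e * S + (F + J) := by ring
      _ ≤ _ := by
          have := mul_le_mul_of_nonneg_right hDL hS0.le
          linarith only [this]
  have h8e : (1 / 8 : ℝ) ^ e ≤ 1 := Real.rpow_le_one (by norm_num) (by norm_num) he0.le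
  have h8e0 : (0 : ℝ) < (1 / 8) ^ e := by positivity
  obtain ⟨m, hm⟩ : ∃ m : ℕ, m = M / F := ⟨_, rfl⟩
  have hpar : Par k F J B n M m L Y (hh e) := by
    refine ⟨hk, hB1, hM1, ?_, hh_mono he0.le, ?_, ?_, ?_, hL.ge, ?_⟩
    · rw [hm]; exact Nat.mul_div_le M F
    · -- hY
      have h1 : ((2 * B * M : ℕ) : ℝ) ≤ X / 4 - 1 := by
        refine h2BM.trans ?_
        have h2 : 2 / (D : ℝ) ≤ 1 / 8 := by
          rw [div_le_div_iff₀ hD0 (by norm_num)]; linarith only [hD16']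
        have h3 := mul_le_mul_of_nonneg_right h2 hX0.le
        linarith only [h3, hX64]
      have h2 : X / 4 - 1 ≤ Y := by linarith only [hY_gt]
      exact_mod_cast h1.trans h2
    · -- hn
      exact size_ineq hk hF1 hB1 hn0 hD16' (by exact_mod_cast hDF) hXk hS0 hS1 h8e h8e0 h2BM
        hY_le E1 hL_le E2 E3
    · -- hsmall
      exact small_ineq hn0 hD0 hX0 hXk hAB' hBM_ge E4 E5
    · -- hR
      have h1 : (1 / 8 * X) ^ e < (hh e Y : ℝ) :=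
        hh_gt he0.le (by positivity) (by linarith only [hY_ge])
      rw [Real.mul_rpow (by norm_num) hX0.le, hXe] at h1
      exact rem_ineq hk hB1 hn0 hS0 hAB' h8e0 hL_le h1 E6 E7 E8
  -- the number of tuples
  obtain ⟨N, hN⟩ : ∃ N : ℕ, N = ⌊c₂ * S⌋₊ := ⟨_, rfl⟩
  have hN_le : (N : ℝ) ≤ c₂ * S := by rw [hN]; exact Nat.floor_le (by positivity)
  have hc₂S : 2 ≤ c₂ * S := by
    rw [div_le_iff₀ hc₂0] at E11
    linarith only [E11]
  have hN_ge : c₂ * S / 2 ≤ N := by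
    have := Nat.lt_floor_add_one (c₂ * S)
    rw [← hN] at this
    linarith only [this, hc₂S]
  have hNm : N ≤ m ^ F :=
    tuples_ineq hF1 hD0 hB0 hX0 hX hn0 hS0 hc₂1 hN_le hm hM2 E9 E10
  -- the noise ranges
  obtain ⟨Hmax, hHmax⟩ : ∃ Hmax : ℕ, Hmax = ⌊S⌋₊ + 1 := ⟨_, rfl⟩
  have hmax : ∀ x, x ^ k ≤ n → hh e x ≤ Hmax := by
    intro x hx
    unfold hh
    rw [hHmax]
    have h1 : (x : ℝ) ^ e ≤ S := by
      have h2 : (x : ℝ) ^ e = ((x : ℝ) ^ k) ^ η := by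
        rw [← Real.rpow_natCast, ← Real.rpow_mul (Nat.cast_nonneg _), he, mul_comm]
      rw [h2, hS]
      refine Real.rpow_le_rpow (by positivity) ?_ hη0.le
      exact_mod_cast hx
    have := Nat.floor_le_floor h1
    omega
  have hHmax_le : (Hmax : ℝ) ≤ 2 * S := by
    rw [hHmax]
    push_cast
    have := Nat.floor_le hS0.le
    linarith only [this, hS1]
  have hHmax0 : 0 < Hmax := by omega
  have hHmin0 : 0 < hh e (B * M) := by unfold hh; omega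
  have hHmin_ge : c₁ * S ≤ (hh e (B * M) : ℝ) := by
    have h1 : (1 / (2 * D) * X) ^ e < (hh e (B * M) : ℝ) := by
      refine hh_gt he0.le (by positivity) ?_
      push_cast
      calc 1 / (2 * (D : ℝ)) * X = X / (2 * D) := by ring
        _ ≤ _ := hBM_ge
    rw [Real.mul_rpow (by positivity) hX0.le, hXe, ← hc₁] at h1
    exact h1.le
  have hblock := hpar.block hb hNm hmax le_rfl hHmin0 hHmax0 hδ1 H
  refine le_trans ?_ hblock
  have hHmaxR : (0 : ℝ) < Hmax := by exact_mod_cast hHmax0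
  rw [hc₂] at hN_le hN_ge ⊢
  exact final_ineq hδ0 hδ1 hc₁0 hS0 (Nat.cast_nonneg _) hN_le hN_ge hHmaxR hHmax_le hHmin_ge

end Pool.Agent.R500.WA
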