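import Mathlib
import Pool.Agent.R500.WA.Asym

set_option autoImplicit false

/-!
# Sums of randomly moved `k`-th powers
-/

namespace Pool.Agent.R500.WA

open Finset Function MeasureTheory ProbabilityTheory Filter Topology
open scoped Classical

lemma summable_pow_BB {q : ℝ} (hq0 : 0 ≤ q) (hq1 : q < 1) :
    ∀ᶠ n : ℕ in atTop, q ^ BB n ≤ 1 / (n : ℝ) ^ 2 := by
  have h1 : ∀ᶠ n : ℕ in atTop, 2 / (1 - q) ≤ Real.log n :=
    (Real.tendsto_log_atTop.comp tendsto_natCast_atTop_atTop).eventually_ge_atTop _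
  filter_upwards [h1, eventually_ge_atTop 16] with n hn1 hn2
  have hn0 : (0 : ℝ) < n := by
    have : 0 < n := by omega
    exact_mod_cast this
  have hp : 0 < 1 - q := by linarith
  have hlog : Real.log n ≤ Nat.log 2 n := le_log hn2
  rw [div_le_iff₀ hp] at hn1
  have hl0 : 0 < Real.log n := by
    by_contra hcon
    push Not at hcon
    nlinarith
  have h2 : q ≤ Real.exp (-(1 - q)) := by
    have := Real.add_one_le_exp (-(1 - q))
    linarith
  have h3 : 2 * Real.log n ≤ (1 - q) * (BB n : ℝ) := by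
    unfold BB
    push_cast
    have h4 : Real.log n * Real.log n ≤ (Nat.log 2 n : ℝ) ^ 2 := by nlinarith
    have h5 : (1 - q) * (Real.log n * Real.log n) ≤ (1 - q) * ((Nat.log 2 n : ℝ) ^ 2) :=
      mul_le_mul_of_nonneg_left h4 hp.le
    nlinarith
  calc q ^ BB n ≤ Real.exp (-(1 - q)) ^ BB n := pow_le_pow_left₀ hq0 h2 _
    _ = Real.exp (-((1 - q) * (BB n : ℝ))) := by
        rw [← Real.exp_nat_mul]; congr 1; ring
    _ ≤ Real.exp (-(2 * Real.log n)) := Real.exp_le_exp.2 (by linarith)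
    _ = 1 / (n : ℝ) ^ 2 := by
        rw [Real.exp_neg, two_mul, Real.exp_add, Real.exp_log hn0, one_div, pow_two]

lemma tsum_ne_top {Ω : Type*} [MeasurableSpace Ω] {μ : Measure Ω} [IsProbabilityMeasure μ]
    {s : ℕ → Set Ω} {q : ℝ} (hq0 : 0 ≤ q) (hq1 : q < 1)
    (h : ∀ᶠ n : ℕ in atTop, μ.real (s n) ≤ q ^ BB n) : ∑' n, μ (s n) ≠ ⊤ := by
  have h1 : Summable (fun n => μ.real (s n)) := by
    have h2 : Summable (fun n : ℕ => 1 / (n : ℝ) ^ 2) :=
      Real.summable_one_div_nat_pow.2 (by norm_num)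
    refine summable_of_isBigO_nat h2 ?_
    refine Asymptotics.IsBigO.of_bound 1 ?_
    filter_upwards [h, summable_pow_BB hq0 hq1] with n hn1 hn2
    rw [Real.norm_eq_abs, Real.norm_eq_abs, abs_of_nonneg measureReal_nonneg,
      abs_of_nonneg (by positivity), one_mul]
    exact hn1.trans hn2
  have h3 : (fun n => μ (s n)) = fun n => ENNReal.ofReal (μ.real (s n)) := by
    funext n
    rw [ofReal_measureReal]
  rw [h3, ← ENNReal.ofReal_tsum_of_nonneg (fun n => measureReal_nonneg) h1]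
  exact ENNReal.ofReal_ne_top

lemma Rep.succ {k t : ℕ} {a : ℕ → ℕ} (h : ∀ᶠ n : ℕ in atTop, Rep k t a n) :
    ∀ᶠ n : ℕ in atTop, Rep k (t + 1) a n := by
  obtain ⟨n₀, hn₀⟩ := eventually_atTop.1 h
  refine eventually_atTop.2 ⟨n₀ + (1 ^ k + a 1), fun n hn => ?_⟩
  obtain ⟨l, h1, h2, h3⟩ := hn₀ (n - (1 ^ k + a 1)) (by omega)
  refine ⟨1 :: l, by simp [h1], ?_, ?_⟩
  · intro y hy
    rcases List.mem_cons.1 hy with rfl | hy
    · exact le_rfl
    · exact h2 y hy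
  · rw [List.map_cons, List.sum_cons, h3]
    omega

/-- **Sums of moved powers.** -/
theorem main {k F J : ℕ} {η δ : ℝ} (hk : 1 ≤ k) (hη0 : 0 < η) (hη1 : η < 1)
    (hF : η * k < F) (hJ : θ k ^ (J + 1) < η) (hδ1 : δ ≤ 1) {Ω : Type*} [MeasurableSpace Ω]
    {μ : Measure Ω} [IsProbabilityMeasure μ] {ξ : ℕ → Ω → ℕ} (H : Noise μ ξ (hh (η * k)) δ)
    {t : ℕ} (ht : F + 1 + J ≤ t) :
    ∀ᵐ ω ∂μ, ∀ᶠ n : ℕ in atTop, Rep k t (fun x => ξ x ω) n := by
  obtain ⟨p, hp0, hp1, hp⟩ := eventually_block hk hη0 hη1 hF hJ H.δpos hδ1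
  have h1 : ∀ᶠ n : ℕ in atTop,
      μ.real {ω | ¬ Rep k (F + 1 + J) (fun x => ξ x ω) n} ≤ (1 - p) ^ BB n := by
    filter_upwards [hp] with n hn
    exact H.fail hp1 fun b hb => hn b hb _ (H.law _)
  have h2 := ae_eventually_notMem (tsum_ne_top (by linarith) (by linarith) h1)
  filter_upwards [h2] with ω hω
  have h3 : ∀ᶠ n : ℕ in atTop, Rep k (F + 1 + J) (fun x => ξ x ω) n := by
    filter_upwards [hω] with n hn
    by_contra hcon
    exact hn hcon
  obtain ⟨d, rfl⟩ := Nat.exists_eq_add_of_le ht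
  clear ht
  induction d with
  | zero => exact h3
  | succ d ih => exact Rep.succ ih

lemma θ_pow_le {k : ℕ} (hk : 1 ≤ k) (j : ℕ) : θ k ^ j ≤ Real.exp (-(j / k)) := by
  have h1 : θ k ≤ Real.exp (-(1 / (k : ℝ))) := by
    have := Real.add_one_le_exp (-(1 / (k : ℝ)))
    unfold θ
    linarith
  calc θ k ^ j ≤ Real.exp (-(1 / (k : ℝ))) ^ j := pow_le_pow_left₀ (θ_nonneg hk) h1 _
    _ = _ := by
      rw [← Real.exp_nat_mul]
      congr 1
      ring

/-- The version with the number of summands only. -/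
theorem main' {k t : ℕ} {η δ : ℝ} (hk : 1 ≤ k) (hη0 : 0 < η) (hη1 : η < 1)
    (ht : 2 ≤ t) (hlog : Real.exp (-((t - 1 - η * k) / k)) < η) (ht2 : η * k + 1 < t)
    (hδ1 : δ ≤ 1) {Ω : Type*} [MeasurableSpace Ω]
    {μ : Measure Ω} [IsProbabilityMeasure μ] {ξ : ℕ → Ω → ℕ} (H : Noise μ ξ (hh (η * k)) δ) :
    ∀ᵐ ω ∂μ, ∀ᶠ n : ℕ in atTop, Rep k t (fun x => ξ x ω) n := by
  have hk0 : (0 : ℝ) < k := by exact_mod_cast hk
  have hηk : 0 < η * k := by positivity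
  have hfl := Nat.floor_le hηk.le
  have hfl' : ⌊η * k⌋₊ + 1 < t := by
    have : ((⌊η * k⌋₊ + 1 : ℕ) : ℝ) < t := by push_cast; linarith
    exact_mod_cast this
  refine main (F := ⌊η * k⌋₊ + 1) (J := t - (⌊η * k⌋₊ + 1) - 1) hk hη0 hη1 ?_ ?_ hδ1 H (by omega)
  · push_cast
    exact Nat.lt_floor_add_one _
  · refine lt_of_le_of_lt (θ_pow_le hk _) (lt_of_le_of_lt ?_ hlog)
    rw [Real.exp_le_exp, neg_le_neg_iff]
    refine div_le_div_of_nonneg_right ?_ hk0.le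
    have e1 : t - (⌊η * k⌋₊ + 1) - 1 + 1 = t - (⌊η * k⌋₊ + 1) := by omega
    rw [e1, Nat.cast_sub hfl'.le]
    push_cast
    linarith

end Pool.Agent.R500.WA
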