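import Mathlib
import Pool.Agent.R500.WA.Main

set_option autoImplicit false

/-!
# Corollaries on moved powers
-/

namespace Pool.Agent.R500.WA

open Finset Function MeasureTheory ProbabilityTheory Filter Topology
open scoped Classical

lemma Rep.toFin {k t n : ℕ} {a b : ℕ → ℕ} (hab : ∀ x, x ^ k + a x = b x) (h : Rep k t a n) :
    ∃ x : Fin t → ℕ, (∀ i, 0 < x i) ∧ ∑ i, b (x i) = n := by
  obtain ⟨l, h1, h2, h3⟩ := h
  subst h1
  refine ⟨fun i => l.get i, fun i => h2 _ (List.get_mem l i), ?_⟩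
  rw [← h3]
  simp only [hab]
  rw [← List.sum_ofFn]
  congr 1
  conv_rhs => rw [← List.ofFn_get l]
  rw [List.map_ofFn]
  rfl

/-- **The main theorem in terms of the moved powers.** -/
theorem core {k t : ℕ} {η δ : ℝ} (hk : 1 ≤ k) (hη0 : 0 < η) (hη1 : η < 1)
    (ht : (η + Real.log (1 / η)) * k + 1 < t) (hδ0 : 0 < δ) (hδ1 : δ ≤ 1)
    {Ω : Type*} [MeasurableSpace Ω] {μ : Measure Ω} [IsProbabilityMeasure μ] {a : ℕ → Ω → ℕ}
    (hmeas : ∀ x, Measurable (a x)) (hindep : iIndepFun a μ)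
    (hrange : ∀ x ω, x ^ k ≤ a x ω ∧ (a x ω : ℝ) ≤ (x : ℝ) ^ k + ((x : ℝ) ^ k) ^ η)
    (hlow : ∀ x j : ℕ, (j : ℝ) ≤ ((x : ℝ) ^ k) ^ η →
      δ / (((x : ℝ) ^ k) ^ η + 1) ≤ μ.real {ω | a x ω = x ^ k + j}) :
    ∀ᵐ ω ∂μ, ∀ᶠ n : ℕ in atTop, ∃ x : Fin t → ℕ, (∀ i, 0 < x i) ∧ ∑ i, a (x i) ω = n := by
  have hk0 : (0 : ℝ) < k := by exact_mod_cast hk
  have hpow : ∀ x : ℕ, ((x : ℝ) ^ k) ^ η = (x : ℝ) ^ (η * k) := by
    intro x
    rw [← Real.rpow_natCast, ← Real.rpow_mul (Nat.cast_nonneg _), mul_comm]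
  have hlog0 : 0 < Real.log (1 / η) := Real.log_pos (by rw [lt_div_iff₀ hη0]; linarith)
  have hηk : 0 < η * k := by positivity
  have hlk : 0 < Real.log (1 / η) * k := by positivity
  have ht' : η * k + 1 < t := by nlinarith
  have ht2 : 2 ≤ t := by
    have h1 : (1 : ℝ) < t := by linarith
    have h2 : 1 < t := by exact_mod_cast h1
    omega
  have H : Noise μ (fun x ω => a x ω - x ^ k) (hh (η * k)) (δ / 2) := by
    refine ⟨fun x => (measurable_of_countable (fun m : ℕ => m - x ^ k)).comp (hmeas x), ?_, ?_,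
      ?_, by positivity⟩
    · exact hindep.comp (fun x m => m - x ^ k) (fun x => measurable_of_countable _)
    · intro x ω
      obtain ⟨h1, h2⟩ := hrange x ω
      rw [hpow] at h2
      unfold hh
      have h3 : ((a x ω - x ^ k : ℕ) : ℝ) ≤ (x : ℝ) ^ (η * k) := by
        rw [Nat.cast_sub h1]
        push_cast
        linarith
      have := Nat.le_floor h3
      omega
    · intro x j hj
      unfold hh at hj ⊢
      have hj' : j ≤ ⌊(x : ℝ) ^ (η * k)⌋₊ := by omega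
      have hx0 : (0 : ℝ) ≤ (x : ℝ) ^ (η * k) := Real.rpow_nonneg (Nat.cast_nonneg _) _
      have h1 : (j : ℝ) ≤ ((x : ℝ) ^ k) ^ η := by
        rw [hpow]
        exact (Nat.le_floor_iff hx0).1 hj'
      have h2 := hlow x j h1
      rw [hpow] at h2
      have h3 : {ω | a x ω - x ^ k = j} = {ω | a x ω = x ^ k + j} := by
        ext ω
        have := (hrange x ω).1
        simp only [Set.mem_ofPred_eq]
        omega
      rw [h3]
      refine le_trans ?_ h2
      push_cast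
      have h4 := Nat.lt_floor_add_one ((x : ℝ) ^ (η * k))
      rw [div_div]
      refine div_le_div_of_nonneg_left hδ0.le (by positivity) ?_
      linarith [Nat.cast_nonneg (α := ℝ) ⌊(x : ℝ) ^ (η * k)⌋₊]
  have hmain := main' (t := t) (μ := μ) hk hη0 hη1 ht2 ?_ ht' (by linarith) H
  · filter_upwards [hmain] with ω hω
    filter_upwards [hω] with n hn
    refine hn.toFin (b := fun x => a x ω) (fun x => ?_)
    have := (hrange x ω).1
    omega
  · rw [← Real.lt_log_iff_exp_lt hη0, neg_lt]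
    rw [← Real.log_inv, ← one_div, lt_div_iff₀ hk0]
    linarith

lemma mono_aux {η₀ η : ℝ} (h0 : 0 < η₀) (h1 : η₀ ≤ η) (h2 : η ≤ 1) :
    η + Real.log (1 / η) ≤ η₀ + Real.log (1 / η₀) := by
  have hη : 0 < η := h0.trans_le h1
  have h3 : Real.log (1 / η) = - Real.log η := by rw [one_div, Real.log_inv]
  have h4 : Real.log (1 / η₀) = - Real.log η₀ := by rw [one_div, Real.log_inv]
  have h5 := Real.one_sub_inv_le_log_of_pos (div_pos hη h0)
  rw [Real.log_div hη.ne' h0.ne', inv_div] at h5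
  have h6 : η - η₀ ≤ 1 - η₀ / η := by
    have : 1 - η₀ / η = (η - η₀) / η := by field_simp
    rw [this, le_div_iff₀ hη]
    nlinarith
  linarith

lemma six_aux : (1 / 6 : ℝ) + Real.log (1 / (1 / 6)) < 2 := by
  have h1 : Real.log (1 / (1 / 6 : ℝ)) < 11 / 6 := by
    rw [Real.log_lt_iff_lt_exp (by norm_num)]
    have h2 : Real.exp (11 / 6) = Real.exp 1 ^ (11 / 6 : ℝ) := by
      rw [← Real.exp_mul]; norm_num
    have h3 : (6 : ℝ) ^ (6 : ℕ) < Real.exp (11 / 6) ^ (6 : ℕ) := by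
      rw [← Real.exp_nat_mul]
      have h4 : ((6 : ℕ) : ℝ) * (11 / 6) = 11 := by norm_num
      rw [h4]
      have h5 : Real.exp 11 = Real.exp 1 ^ 11 := by rw [← Real.exp_nat_mul]; norm_num
      rw [h5]
      have h6 : (2.7 : ℝ) ^ 11 < Real.exp 1 ^ 11 :=
        pow_lt_pow_left₀ (by have := Real.exp_one_gt_d9; linarith) (by norm_num) (by norm_num)
      refine lt_trans ?_ h6
      norm_num
    have h7 := lt_of_pow_lt_pow_left₀ 6 (Real.exp_pos _).le h3
    norm_num at h7 ⊢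
    exact h7
  linarith

lemma thirtytwo_aux : (1 / 32 : ℝ) + Real.log (1 / (1 / 32)) < 7 / 2 := by
  have h1 : Real.log (1 / (1 / 32 : ℝ)) = 5 * Real.log 2 := by
    have : (1 / (1 / 32) : ℝ) = 2 ^ 5 := by norm_num
    rw [this, Real.log_pow]
    norm_num
  have h2 := Real.log_two_lt_d9
  rw [h1]
  linarith

/-- the law: `j` has the weight `δ / (H + 1)`, and `0` has in addition the weight `1 - δ` -/
noncomputable def lawν (H : ℕ) (δ : ℝ) : Measure ℕ :=
  ∑ j ∈ range (H + 1), ENNReal.ofReal (δ / (H + 1) + if j = 0 then 1 - δ else 0) •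
    Measure.dirac j

lemma lawν_prob (H : ℕ) {δ : ℝ} (hδ0 : 0 < δ) (hδ1 : δ ≤ 1) :
    IsProbabilityMeasure (lawν H δ) := by
  refine ⟨?_⟩
  unfold lawν
  rw [Measure.finsetSum_apply]
  simp only [Measure.smul_apply, measure_univ, smul_eq_mul, mul_one]
  rw [← ENNReal.ofReal_sum_of_nonneg]
  · have h1 : ∑ j ∈ range (H + 1), (δ / ((H : ℝ) + 1) + if j = 0 then 1 - δ else 0) = 1 := by
      rw [Finset.sum_add_distrib, Finset.sum_const, Finset.card_range, nsmul_eq_mul,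
        Finset.sum_ite_eq' (range (H + 1)) 0, if_pos (by simp)]
      push_cast
      have : (H : ℝ) + 1 ≠ 0 := by positivity
      field_simp
      ring
    rw [h1, ENNReal.ofReal_one]
  · intro j _
    have : 0 ≤ δ / ((H : ℝ) + 1) := by positivity
    split_ifs <;> linarith

lemma le_lawν (H : ℕ) {δ : ℝ} (hδ0 : 0 < δ) (hδ1 : δ ≤ 1) {j : ℕ} (hj : j ≤ H) :
    δ / (H + 1) + (if j = 0 then 1 - δ else 0) ≤ (lawν H δ).real {j} := by
  haveI := lawν_prob H hδ0 hδ1
  rw [measureReal_def]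
  have h0 : 0 ≤ δ / ((H : ℝ) + 1) + (if j = 0 then 1 - δ else 0) := by
    have : 0 ≤ δ / ((H : ℝ) + 1) := by positivity
    split_ifs <;> linarith
  rw [← ENNReal.ofReal_le_iff_le_toReal (measure_ne_top _ _)]
  unfold lawν
  rw [Measure.finsetSum_apply]
  have h1 := Finset.single_le_sum (f := fun i : ℕ => (ENNReal.ofReal (δ / ((H : ℝ) + 1) +
    if i = 0 then 1 - δ else 0) • Measure.dirac i) {j}) (s := range (H + 1))
    (fun _ _ => zero_le) (Finset.mem_range.2 (Nat.lt_succ_of_le hj))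
  refine le_trans ?_ h1
  simp only [Measure.smul_apply, smul_eq_mul]
  rw [Measure.dirac_apply_of_mem (Set.mem_singleton j), mul_one]

/-- **Existence of randomly moved powers**, with a proportion at least `1 - δ` not moved. -/
theorem exists_moved (k : ℕ) {η δ : ℝ} (hδ0 : 0 < δ) (hδ1 : δ ≤ 1) :
    ∃ (Ω : Type) (_ : MeasurableSpace Ω) (μ : Measure Ω) (_ : IsProbabilityMeasure μ)
      (a : ℕ → Ω → ℕ), (∀ x, Measurable (a x)) ∧ iIndepFun a μ ∧
      (∀ x ω, x ^ k ≤ a x ω ∧ (a x ω : ℝ) ≤ (x : ℝ) ^ k + ((x : ℝ) ^ k) ^ η) ∧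
      (∀ x j : ℕ, (j : ℝ) ≤ ((x : ℝ) ^ k) ^ η →
        δ / (((x : ℝ) ^ k) ^ η + 1) ≤ μ.real {ω | a x ω = x ^ k + j}) ∧
      (∀ x, 1 - δ ≤ μ.real {ω | a x ω = x ^ k}) := by
  set Hx : ℕ → ℕ := fun x => ⌊((x : ℝ) ^ k) ^ η⌋₊ with hHx
  haveI : ∀ x, IsProbabilityMeasure (lawν (Hx x) δ) := fun x => lawν_prob (Hx x) hδ0 hδ1
  obtain ⟨Ω, mΩ, μ, X, hXm, hXl, hXi, hμ⟩ := exists_hasLaw_indepFun (fun _ : ℕ => ℕ)
    (fun x => lawν (Hx x) δ)
  have hnn : ∀ x : ℕ, (0 : ℝ) ≤ ((x : ℝ) ^ k) ^ η := fun x => by positivity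
  have hlaw : ∀ x j, μ.real {ω | X x ω = j} = (lawν (Hx x) δ).real {j} := by
    intro x j
    have h1 : {ω | X x ω = j} = X x ⁻¹' {j} := rfl
    rw [h1, measureReal_def, measureReal_def, ← (hXl x).map_eq,
      Measure.map_apply (hXm x) (measurableSet_singleton j)]
  have hsub : ∀ x j, j ≤ Hx x → (lawν (Hx x) δ).real {j} ≤
      μ.real {ω | x ^ k + min (X x ω) (Hx x) = x ^ k + j} := by
    intro x j hj
    rw [← hlaw]
    refine measureReal_mono ?_ (measure_ne_top _ _)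
    intro ω hω
    rw [Set.mem_ofPred_eq] at hω ⊢
    rw [hω, min_eq_left hj]
  refine ⟨Ω, mΩ, μ, hμ, fun x ω => x ^ k + min (X x ω) (Hx x), ?_, ?_, ?_, ?_, ?_⟩
  · intro x
    exact (measurable_of_countable (fun m : ℕ => x ^ k + min m (Hx x))).comp (hXm x)
  · exact hXi.comp (fun x m => x ^ k + min m (Hx x)) (fun x => measurable_of_countable _)
  · intro x ω
    refine ⟨Nat.le_add_right _ _, ?_⟩
    push_cast
    have h1 : ((min (X x ω) (Hx x) : ℕ) : ℝ) ≤ Hx x := by exact_mod_cast min_le_right _ _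
    have h2 := Nat.floor_le (hnn x)
    push_cast at h1
    linarith
  · intro x j hj
    have hj' : j ≤ Hx x := Nat.le_floor hj
    refine le_trans ?_ ((le_lawν (Hx x) hδ0 hδ1 hj').trans (hsub x j hj'))
    have h1 : ((Hx x : ℕ) : ℝ) ≤ ((x : ℝ) ^ k) ^ η := Nat.floor_le (hnn x)
    have h2 : δ / (((x : ℝ) ^ k) ^ η + 1) ≤ δ / ((Hx x : ℝ) + 1) :=
      div_le_div_of_nonneg_left hδ0.le (by positivity) (by linarith)
    have h3 : (0 : ℝ) ≤ if j = 0 then 1 - δ else 0 := by split_ifs <;> linarith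
    linarith
  · intro x
    have h1 := (le_lawν (Hx x) hδ0 hδ1 (Nat.zero_le _)).trans (hsub x 0 (Nat.zero_le _))
    rw [if_pos rfl, add_zero] at h1
    have h2 : 0 ≤ δ / ((Hx x : ℝ) + 1) := by positivity
    linarith

end Pool.Agent.R500.WA
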