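import Mathlib
import Pool.Agent.R500.WA.Cor

set_option autoImplicit false

/-!
# Randomly moved powers of which a proportion `1 - δ` is not moved
-/

namespace Pool.Agent.R500.WA

open Finset Function MeasureTheory ProbabilityTheory Filter Topology
open scoped Classical

/-- The law of the coin: `true` (not moved) has the probability `1 - δ`. -/
noncomputable def coin (δ : ℝ) : Measure Bool :=
  ENNReal.ofReal (1 - δ) • Measure.dirac true + ENNReal.ofReal δ • Measure.dirac false

lemma coin_true (δ : ℝ) : coin δ {true} = ENNReal.ofReal (1 - δ) := by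
  unfold coin
  simp [Measure.dirac_apply]

lemma coin_false (δ : ℝ) : coin δ {false} = ENNReal.ofReal δ := by
  unfold coin
  simp [Measure.dirac_apply]

lemma coin_prob {δ : ℝ} (hδ0 : 0 < δ) (hδ1 : δ ≤ 1) : IsProbabilityMeasure (coin δ) := by
  refine ⟨?_⟩
  unfold coin
  rw [Measure.add_apply, Measure.smul_apply, Measure.smul_apply, measure_univ, measure_univ,
    smul_eq_mul, smul_eq_mul, mul_one, mul_one, ← ENNReal.ofReal_add (by linarith) hδ0.le]
  simp

/-- **Existence of randomly moved powers**, with a proportion at least `1 - δ` not moved. -/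
theorem exists_moved2 (k : ℕ) {η δ : ℝ} (hδ0 : 0 < δ) (hδ1 : δ ≤ 1) :
    ∃ (Ω : Type) (_ : MeasurableSpace Ω) (μ : Measure Ω) (_ : IsProbabilityMeasure μ)
      (a : ℕ → Ω → ℕ), (∀ x, Measurable (a x)) ∧ iIndepFun a μ ∧
      (∀ x ω, x ^ k ≤ a x ω ∧ (a x ω : ℝ) ≤ (x : ℝ) ^ k + ((x : ℝ) ^ k) ^ η) ∧
      (∀ x j : ℕ, (j : ℝ) ≤ ((x : ℝ) ^ k) ^ η →
        δ / (((x : ℝ) ^ k) ^ η + 1) ≤ μ.real {ω | a x ω = x ^ k + j}) ∧
      (∀ x, 1 - δ ≤ μ.real {ω | a x ω = x ^ k}) ∧
      (∀ᵐ ω ∂μ, ∀ c : ℝ, c < 1 - δ → ∀ᶠ n : ℕ in atTop,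
        c * n ≤ ((range n).filter fun x => a x ω = x ^ k).card) := by
  obtain ⟨Hx, hHx⟩ : ∃ Hx : ℕ → ℕ, Hx = fun x : ℕ => ⌊((x : ℝ) ^ k) ^ η⌋₊ := ⟨_, rfl⟩
  haveI : ∀ x, IsProbabilityMeasure (lawν (Hx x) 1) := fun x =>
    lawν_prob (Hx x) one_pos le_rfl
  haveI := coin_prob hδ0 hδ1
  obtain ⟨Ω, mΩ, μ, X, hXm, hXl, hXi, hμ⟩ := exists_hasLaw_indepFun (fun _ : ℕ => Bool × ℕ)
    (fun x => (coin δ).prod (lawν (Hx x) 1))
  have hnn : ∀ x : ℕ, (0 : ℝ) ≤ ((x : ℝ) ^ k) ^ η := fun x => by positivity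
  have hcoin : ∀ x, μ.map (fun ω => (X x ω).1) = coin δ := by
    intro x
    have h1 : μ.map (fun ω => (X x ω).1) = (μ.map (X x)).map Prod.fst := by
      rw [Measure.map_map measurable_fst (hXm x)]
      rfl
    rw [h1, (hXl x).map_eq]
    exact Measure.fst_prod
  have htrue : ∀ x, μ.real {ω | (X x ω).1 = true} = 1 - δ := by
    intro x
    have h1 : {ω | (X x ω).1 = true} = (fun ω => (X x ω).1) ⁻¹' {true} := rfl
    have hm : Measurable (fun ω => (X x ω).1) := measurable_fst.comp (hXm x)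
    rw [measureReal_def, h1, ← Measure.map_apply hm (measurableSet_singleton _), hcoin x, coin_true,
      ENNReal.toReal_ofReal (by linarith)]
  have hsub : ∀ x, {ω | (X x ω).1 = true} ⊆ {ω | (x ^ k + if (X x ω).1 then 0 else
      min (X x ω).2 (Hx x)) = x ^ k} := by
    intro x ω hω
    rw [Set.mem_ofPred_eq] at hω ⊢
    rw [hω]
    simp
  refine ⟨Ω, mΩ, μ, hμ, fun x ω => x ^ k + if (X x ω).1 then 0 else min (X x ω).2 (Hx x),
    ?_, ?_, ?_, ?_, ?_, ?_⟩
  · intro x
    exact (measurable_of_countable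
      (fun p : Bool × ℕ => x ^ k + if p.1 then 0 else min p.2 (Hx x))).comp (hXm x)
  · exact hXi.comp (fun x p => x ^ k + if p.1 then 0 else min p.2 (Hx x))
      (fun x => measurable_of_countable _)
  · intro x ω
    refine ⟨Nat.le_add_right _ _, ?_⟩
    push_cast
    have h2 : ((Hx x : ℕ) : ℝ) ≤ ((x : ℝ) ^ k) ^ η := by rw [hHx]; exact Nat.floor_le (hnn x)
    split_ifs
    · linarith [hnn x]
    · have h1 : ((min (X x ω).2 (Hx x) : ℕ) : ℝ) ≤ Hx x := by exact_mod_cast min_le_right _ _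
      push_cast at h1
      linarith
  · intro x j hj
    have hj' : j ≤ Hx x := by rw [hHx]; exact Nat.le_floor hj
    have h1 : ((Hx x : ℕ) : ℝ) ≤ ((x : ℝ) ^ k) ^ η := by rw [hHx]; exact Nat.floor_le (hnn x)
    have h2 : δ / (((x : ℝ) ^ k) ^ η + 1) ≤ δ * (1 / ((Hx x : ℝ) + 1)) := by
      rw [mul_one_div]
      exact div_le_div_of_nonneg_left hδ0.le (by positivity) (by linarith)
    have h3 : δ * (1 / ((Hx x : ℝ) + 1)) ≤ μ.real (X x ⁻¹' {(false, j)}) := by
      rw [measureReal_def, ← Measure.map_apply (hXm x) (measurableSet_singleton _),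
        (hXl x).map_eq]
      have h4 : ({(false, j)} : Set (Bool × ℕ)) = {false} ×ˢ {j} := by simp
      rw [h4, Measure.prod_prod, ENNReal.toReal_mul, coin_false, ENNReal.toReal_ofReal hδ0.le]
      refine mul_le_mul_of_nonneg_left ?_ hδ0.le
      have h5 := le_lawν (Hx x) (δ := 1) one_pos le_rfl hj'
      rw [measureReal_def] at h5
      rw [sub_self, ite_self, add_zero] at h5
      exact h5
    refine h2.trans (h3.trans (measureReal_mono ?_ (measure_ne_top _ _)))
    intro ω hω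
    have h7 : X x ω = (false, j) := hω
    rw [Set.mem_ofPred_eq]
    dsimp only
    rw [h7]
    simp [hj']
  · intro x
    rw [← htrue x]
    exact measureReal_mono (hsub x) (measure_ne_top _ _)
  · -- the strong law of large numbers
    obtain ⟨g, hg⟩ : ∃ g : Bool → ℝ, g = fun b => if b then 1 else 0 := ⟨_, rfl⟩
    have hgm : Measurable g := measurable_of_countable _
    have hfst : ∀ x, Measurable (fun ω => (X x ω).1) := fun x => measurable_fst.comp (hXm x)
    have hYm : ∀ x, Measurable (fun ω => g (X x ω).1) := fun x => hgm.comp (hfst x)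
    have hint : Integrable (fun ω => g (X 0 ω).1) μ := by
      refine Integrable.of_bound (C := 1) (hYm 0).aestronglyMeasurable (ae_of_all _ fun ω => ?_)
      rw [hg]
      dsimp only
      split_ifs <;> simp
    have hindep : Pairwise fun i j => IndepFun (fun ω => g (X i ω).1) (fun ω => g (X j ω).1) μ := by
      intro i j hij
      have h1 := hXi.comp (fun _ p => g p.1) (fun _ => measurable_of_countable _)
      exact h1.indepFun hij
    have hident : ∀ i, IdentDistrib (fun ω => g (X i ω).1) (fun ω => g (X 0 ω).1) μ μ := by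
      intro i
      have h1 : IdentDistrib (fun ω => (X i ω).1) (fun ω => (X 0 ω).1) μ μ :=
        ⟨(hfst i).aemeasurable, (hfst 0).aemeasurable, by rw [hcoin i, hcoin 0]⟩
      exact h1.comp hgm
    have hE : ∫ ω, g (X 0 ω).1 ∂μ = 1 - δ := by
      rw [← htrue 0]
      have h1 : (fun ω => g (X 0 ω).1) = Set.indicator {ω | (X 0 ω).1 = true} (fun _ => (1 : ℝ)) := by
        funext ω
        rw [hg]
        by_cases h : (X 0 ω).1 = true
        · rw [Set.indicator_of_mem (by exact h)]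
          simp [h]
        · rw [Set.indicator_of_notMem (by exact h)]
          simp [h]
      rw [h1, integral_indicator_const]
      · simp
      · exact hfst 0 (measurableSet_singleton true)
    have hslln := strong_law_ae_real (fun x ω => g (X x ω).1) hint hindep hident
    filter_upwards [hslln] with ω hω
    intro c hc
    rw [hE] at hω
    filter_upwards [hω.eventually (lt_mem_nhds hc), eventually_gt_atTop 0] with n hn hn0
    have hn0' : (0 : ℝ) < n := by exact_mod_cast hn0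
    rw [lt_div_iff₀ hn0'] at hn
    refine hn.le.trans ?_
    have h1 : ∑ i ∈ range n, g (X i ω).1 = (((range n).filter fun x => (X x ω).1 = true).card : ℝ) := by
      rw [hg, Finset.card_filter]
      push_cast
      rfl
    rw [h1]
    have h2 : ((range n).filter fun x => (X x ω).1 = true) ⊆ (range n).filter fun x =>
        (x ^ k + if (X x ω).1 then 0 else min (X x ω).2 (Hx x)) = x ^ k := by
      intro x hx
      rw [Finset.mem_filter] at hx ⊢
      exact ⟨hx.1, hsub x hx.2⟩
    exact_mod_cast Finset.card_le_card h2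

/-- **The deterministic corollary.** -/
theorem det {k t : ℕ} {η δ : ℝ} (hk : 1 ≤ k) (hη0 : 0 < η) (hη1 : η < 1)
    (ht : (η + Real.log (1 / η)) * k + 1 < t) (hδ0 : 0 < δ) (hδ1 : δ ≤ 1) :
    ∃ b : ℕ → ℕ, (∀ x, x ^ k ≤ b x ∧ (b x : ℝ) ≤ (x : ℝ) ^ k + ((x : ℝ) ^ k) ^ η) ∧
      (∀ᶠ n : ℕ in atTop, (1 - δ) * n ≤ ((range n).filter fun x => b x = x ^ k).card) ∧
      ∀ᶠ n : ℕ in atTop, ∃ x : Fin t → ℕ, (∀ i, 0 < x i) ∧ ∑ i, b (x i) = n := by
  obtain ⟨Ω, mΩ, μ, hμ, a, h1, h2, h3, h4, -, h6⟩ :=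
    exists_moved2 k (η := η) (δ := δ / 2) (by linarith) (by linarith)
  have h7 := core hk hη0 hη1 ht (by linarith : 0 < δ / 2) (by linarith) h1 h2 h3 h4
  obtain ⟨ω, h8, h9⟩ := (h6.and h7).exists
  exact ⟨fun x => a x ω, fun x => h3 x ω, h8 (1 - δ) (by linarith), h9⟩

end Pool.Agent.R500.WA
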