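import Mathlib

set_option autoImplicit false

/-!
# At least `k + 1` moved powers are necessary
-/

namespace Pool.Agent.R500.WA

open Finset

/-- **Counting.** -/
theorem lower {k : ℕ} (hk : 2 ≤ k) (a : ℕ → ℕ) (ha : ∀ x, x ^ k ≤ a x) (N₀ : ℕ) :
    ∃ n, N₀ ≤ n ∧ ¬ ∃ s, s ≤ k ∧ ∃ x : Fin s → ℕ, (∀ i, 0 < x i) ∧ ∑ i, a (x i) = n := by
  classical
  by_contra hcon
  push Not at hcon
  obtain ⟨m, rfl⟩ : ∃ m, k = m + 2 := ⟨k - 2, by omega⟩
  set M : ℕ := 2 * N₀ + 2 with hM
  set a' : ℕ → ℕ := fun x => if x = 0 then 0 else a x with ha'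
  have ha'le : ∀ x, x ^ (m + 2) ≤ a' x := by
    intro x
    rw [ha']
    by_cases hx : x = 0
    · subst hx; simp
    · simp only [if_neg hx]; exact ha x
  set P : Finset (ℕ × ℕ) := (range M ×ˢ range M).filter (fun p => p.1 ≤ p.2) with hP
  set Ψ : (ℕ × ℕ) × (Fin m → Fin M) → ℕ := fun q =>
    a' q.1.1 + (a' q.1.2 + ∑ i, a' (q.2 i)) with hΨ
  have hsub : Finset.Ico N₀ (M ^ (m + 2)) ⊆ (P ×ˢ (univ : Finset (Fin m → Fin M))).image Ψ := by
    intro n hn
    rw [Finset.mem_Ico] at hn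
    obtain ⟨s, hs, x, hx, hsum⟩ := hcon n hn.1
    obtain ⟨d, hd⟩ : ∃ d, m + 2 = s + d := ⟨m + 2 - s, by omega⟩
    -- pad by zeros
    have hy : ∃ y : Fin (m + 2) → ℕ, ∑ i, a' (y i) = n := by
      rw [hd]
      refine ⟨Fin.append x (fun _ => 0), ?_⟩
      rw [Fin.sum_univ_add]
      simp only [Fin.append_left, Fin.append_right]
      have h1 : ∀ i, a' (x i) = a (x i) := fun i => by
        rw [ha']; simp only [if_neg (hx i).ne']
      have h2 : a' 0 = 0 := by rw [ha']; simp
      simp only [h1, h2, Finset.sum_const_zero, add_zero]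
      exact hsum
    obtain ⟨y, hy⟩ := hy
    have hyM : ∀ i, y i < M := by
      intro i
      have h1 : a' (y i) ≤ n := by
        rw [← hy]
        exact Finset.single_le_sum (f := fun i => a' (y i)) (fun _ _ => Nat.zero_le _)
          (Finset.mem_univ i)
      have h2 : (y i) ^ (m + 2) < M ^ (m + 2) := ((ha'le (y i)).trans h1).trans_lt hn.2
      exact lt_of_pow_lt_pow_left₀ _ (Nat.zero_le _) h2
    rw [Fin.sum_univ_succ, Fin.sum_univ_succ] at hy
    rw [Finset.mem_image]
    rcases le_total (y 0) (y (Fin.succ 0)) with hle | hle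
    · refine ⟨((y 0, y (Fin.succ 0)), fun i => ⟨y i.succ.succ, hyM _⟩), ?_, ?_⟩
      · rw [Finset.mem_product, hP, Finset.mem_filter, Finset.mem_product, Finset.mem_range,
          Finset.mem_range]
        exact ⟨⟨⟨hyM _, hyM _⟩, hle⟩, Finset.mem_univ _⟩
      · rw [hΨ]; exact hy
    · refine ⟨((y (Fin.succ 0), y 0), fun i => ⟨y i.succ.succ, hyM _⟩), ?_, ?_⟩
      · rw [Finset.mem_product, hP, Finset.mem_filter, Finset.mem_product, Finset.mem_range,
          Finset.mem_range]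
        exact ⟨⟨⟨hyM _, hyM _⟩, hle⟩, Finset.mem_univ _⟩
      · rw [hΨ]
        simp only
        omega
  have hcard := Finset.card_le_card hsub
  rw [Nat.card_Ico] at hcard
  have h1 : #((P ×ˢ (univ : Finset (Fin m → Fin M))).image Ψ) ≤ #P * M ^ m := by
    refine Finset.card_image_le.trans ?_
    rw [Finset.card_product]
    simp
  have h2 : 2 * #P ≤ M * (M + 1) := by
    have h3 : P ⊆ (range M).biUnion (fun y => (range (y + 1)).image (fun x => (x, y))) := by
      intro p hp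
      rw [hP, Finset.mem_filter, Finset.mem_product, Finset.mem_range, Finset.mem_range] at hp
      rw [Finset.mem_biUnion]
      refine ⟨p.2, Finset.mem_range.2 hp.1.2, ?_⟩
      rw [Finset.mem_image]
      exact ⟨p.1, Finset.mem_range.2 (by omega), rfl⟩
    have h4 : #P ≤ ∑ y ∈ range M, (y + 1) := by
      refine (Finset.card_le_card h3).trans (Finset.card_biUnion_le.trans ?_)
      refine Finset.sum_le_sum fun y _ => ?_
      refine Finset.card_image_le.trans ?_
      simp
    have h5 : ∑ y ∈ range M, (y + 1) = M * (M + 1) / 2 := by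
      have := Finset.sum_range_id (M + 1)
      rw [Finset.sum_range_succ'] at this
      simp only [add_zero] at this
      rw [this]
      rw [Nat.add_sub_cancel, mul_comm]
    rw [h5] at h4
    have := Nat.mul_div_le (M * (M + 1)) 2
    omega
  have h3 : 2 * (M ^ (m + 2) - N₀) ≤ M * (M + 1) * M ^ m := by
    calc 2 * (M ^ (m + 2) - N₀) ≤ 2 * (#P * M ^ m) := Nat.mul_le_mul_left 2 (hcard.trans h1)
      _ = (2 * #P) * M ^ m := by ring
      _ ≤ M * (M + 1) * M ^ m := Nat.mul_le_mul_right _ h2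
  have h4 : M ^ (m + 2) = M * M * M ^ m := by ring
  have h5 : M * (M + 1) * M ^ m = M * M * M ^ m + M * M ^ m := by ring
  have h6 : 1 ≤ M ^ m := Nat.one_le_pow _ _ (by omega)
  have h7 : M * M * M ^ m = M * M ^ m + (M - 1) * (M * M ^ m) := by
    obtain ⟨u, hu⟩ : ∃ u, M = u + 1 := ⟨M - 1, by omega⟩
    rw [hu, Nat.add_sub_cancel]
    ring
  have h8 : M - 1 = 2 * N₀ + 1 := by omega
  rw [h8] at h7
  have h9 : (2 * N₀ + 1) * (M * M ^ m) ≥ (2 * N₀ + 1) * M := by
    refine Nat.mul_le_mul_left _ ?_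
    exact Nat.le_mul_of_pos_right _ (by omega)
  have h10 : (2 * N₀ + 1) * M ≥ (2 * N₀ + 1) * 1 := Nat.mul_le_mul_left _ (by omega)
  rw [h4] at h3
  rw [h5] at h3
  omega

end Pool.Agent.R500.WA
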